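import Mathlib

/-!
Z701-FIX, the class argument: the square of an inert prime is not represented by `x² + 14 y²` in a
nontrivial way.
-/

set_option autoImplicit false

namespace Pool.Agent.Y657.Z

lemma sq_of_cop {a b c : ℕ} (h : Nat.Coprime a b) (e : a * b = c ^ 2) : ∃ d, a = d ^ 2 := by
  refine exists_eq_pow_of_mul_eq_pow (b := b) (c := c) ?_ e
  rw [Nat.isUnit_iff]
  exact h

/-- coprime numbers with product `14 w²` -/
lemma split14 {u v w : ℕ} (h : Nat.Coprime u v) (e : u * v = 14 * w ^ 2) :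
    ∃ s t : ℕ, u + v = s ^ 2 + 14 * t ^ 2 ∨ u + v = 2 * s ^ 2 + 7 * t ^ 2 := by
  have h2 : 2 ∣ u ∨ 2 ∣ v := (Nat.Prime.dvd_mul Nat.prime_two).1 ⟨7 * w ^ 2, by rw [e]; ring⟩
  have p7 : Nat.Prime 7 := by norm_num
  have h7 : 7 ∣ u ∨ 7 ∣ v := (Nat.Prime.dvd_mul p7).1 ⟨2 * w ^ 2, by rw [e]; ring⟩
  have h27 : Nat.Coprime 2 7 := by norm_num
  have main : ∀ u v : ℕ, Nat.Coprime u v → u * v = 14 * w ^ 2 → 2 ∣ u → (7 ∣ u ∨ 7 ∣ v) →
      ∃ s t : ℕ, u + v = s ^ 2 + 14 * t ^ 2 ∨ u + v = 2 * s ^ 2 + 7 * t ^ 2 := by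
    intro u v h e h2 h7
    rcases h7 with h7 | h7
    · obtain ⟨k, hk⟩ := h27.mul_dvd_of_dvd_of_dvd h2 h7
      have hk' : u = 14 * k := by rw [hk]
      subst hk'
      have e1 : k * v = w ^ 2 := by
        have : 14 * (k * v) = 14 * w ^ 2 := by rw [← e]; ring
        exact Nat.eq_of_mul_eq_mul_left (by norm_num) this
      have c1 : Nat.Coprime k v := Nat.Coprime.coprime_mul_left h
      obtain ⟨t, ht⟩ := sq_of_cop c1 e1
      obtain ⟨s, hs⟩ := sq_of_cop c1.symm (by rw [mul_comm]; exact e1)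
      exact ⟨s, t, Or.inl (by rw [ht, hs]; ring)⟩
    · obtain ⟨k, rfl⟩ := h2
      obtain ⟨l, rfl⟩ := h7
      have e1 : k * l = w ^ 2 := by
        have : 14 * (k * l) = 14 * w ^ 2 := by rw [← e]; ring
        exact Nat.eq_of_mul_eq_mul_left (by norm_num) this
      have c1 : Nat.Coprime k l :=
        Nat.Coprime.coprime_mul_left_right (Nat.Coprime.coprime_mul_left h)
      obtain ⟨s, hs⟩ := sq_of_cop c1 e1
      obtain ⟨t, ht⟩ := sq_of_cop c1.symm (by rw [mul_comm]; exact e1)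
      exact ⟨s, t, Or.inr (by rw [hs, ht])⟩
  rcases h2 with h2 | h2
  · exact main u v h e h2 h7
  · obtain ⟨s, t, hst⟩ := main v u h.symm (by rw [mul_comm]; exact e) h2 h7.symm
    exact ⟨s, t, by rw [add_comm u v]; exact hst⟩

/-- the class argument -/
lemma norm_sq {a : ℕ} (ha : a.Prime) (h4 : a % 4 = 1) (h7 : a % 7 = 3 ∨ a % 7 = 5 ∨ a % 7 = 6)
    {X Y : ℤ} (h : X ^ 2 + 14 * Y ^ 2 = (a : ℤ) ^ 2) (hY : Y ≠ 0) : False := by
  have hY2 : 0 < Y ^ 2 := by positivity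
  have hapos : (0 : ℤ) < a := by exact_mod_cast ha.pos
  have hlt : X ^ 2 < (a : ℤ) ^ 2 := by linarith
  obtain ⟨hl, hr⟩ := abs_lt.1 ((sq_lt_sq₀ (abs_nonneg X) hapos.le).1 (by rwa [sq_abs]))
  have ha2 : (a : ℤ) % 2 = 1 := by omega
  -- X is odd
  have hX : X % 2 = 1 := by
    rcases Int.emod_two_eq_zero_or_one X with hx | hx
    · exfalso
      obtain ⟨k, hk⟩ := Int.dvd_of_emod_eq_zero hx
      obtain ⟨l, hl'⟩ : ∃ l : ℤ, (a : ℤ) = 2 * l + 1 := ⟨(a : ℤ) / 2, by omega⟩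
      rw [hk, hl'] at h
      have : (2 : ℤ) * (2 * k ^ 2 + 7 * Y ^ 2) = 2 * (2 * l ^ 2 + 2 * l) + 1 := by
        linear_combination h
      omega
    · exact hx
  obtain ⟨u, hu⟩ : ∃ u : ℤ, (a : ℤ) - X = 2 * u := ⟨((a : ℤ) - X) / 2, by omega⟩
  obtain ⟨v, hv⟩ : ∃ v : ℤ, (a : ℤ) + X = 2 * v := ⟨((a : ℤ) + X) / 2, by omega⟩
  have huv : 2 * (u * v) = 7 * Y ^ 2 := by
    have : (a - X) * (a + X) = 14 * Y ^ 2 := by linear_combination -h
    rw [hu, hv] at this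
    linarith
  have hYe : Y % 2 = 0 := by
    rcases Int.emod_two_eq_zero_or_one Y with hy | hy
    · exact hy
    · exfalso
      obtain ⟨l, hl'⟩ : ∃ l : ℤ, Y = 2 * l + 1 := ⟨Y / 2, by omega⟩
      rw [hl'] at huv
      have : (2 : ℤ) * (u * v) = 2 * (7 * (2 * l ^ 2 + 2 * l) + 3) + 1 := by
        linear_combination huv
      omega
  obtain ⟨w, hw⟩ := Int.dvd_of_emod_eq_zero hYe
  have huv' : u * v = 14 * w ^ 2 := by
    rw [hw] at huv
    linarith
  have hupos : 0 < u := by linarith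
  have hvpos : 0 < v := by linarith
  have hsum : u + v = a := by linarith
  lift u to ℕ using hupos.le
  lift v to ℕ using hvpos.le
  have hsum' : u + v = a := by exact_mod_cast hsum
  have huv'' : u * v = 14 * w.natAbs ^ 2 := by
    have : ((u * v : ℕ) : ℤ) = ((14 * w.natAbs ^ 2 : ℕ) : ℤ) := by
      push_cast
      rw [sq_abs]
      exact huv'
    exact_mod_cast this
  have hcop : Nat.Coprime u v := by
    have h1 : Nat.gcd u v ∣ a := by
      rw [← hsum']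
      exact dvd_add (Nat.gcd_dvd_left _ _) (Nat.gcd_dvd_right _ _)
    rcases (Nat.dvd_prime ha).1 h1 with h2 | h2
    · exact h2
    · exfalso
      have h3 : a ∣ u := h2 ▸ Nat.gcd_dvd_left u v
      have h4 := Nat.le_of_dvd (by exact_mod_cast hupos) h3
      have : 0 < v := by exact_mod_cast hvpos
      omega
  obtain ⟨s, t, hst⟩ := split14 hcop huv''
  rw [hsum'] at hst
  have hs : ∀ s : ℕ, s ^ 2 % 7 = 0 ∨ s ^ 2 % 7 = 1 ∨ s ^ 2 % 7 = 2 ∨ s ^ 2 % 7 = 4 := by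
    intro s
    have : s % 7 < 7 := Nat.mod_lt _ (by norm_num)
    rw [Nat.pow_mod]
    interval_cases (s % 7) <;> simp
  have h1 := hs s
  rcases hst with hst | hst <;> omega

end Pool.Agent.Y657.Z
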