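import Mathlib
import Pool.Agent.Z700.Defs3
import Pool.Agent.Y657.Z.Cls

/-!
Z701-FIX, part 1: the relation between two representations, general family.
-/

set_option autoImplicit false
set_option linter.unusedSectionVars false

namespace Pool.Agent.Y657.Z

open Finset Matrix
open Pool.Agent.Z700 (pr X2 Yd lres Sol3)
open Pool.Agent.Z701

lemma ok_prime {p : ℕ} (h : Sp p ∨ Nr p) : p.Prime := h.elim (fun h => h.1) (fun h => h.1)

lemma ok_mod4 {p : ℕ} (h : Sp p ∨ Nr p) : p % 4 = 1 := by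
  rcases h with h | h
  · have := h.2.1
    omega
  · have := h.2.1
    omega

lemma ok_odd {p : ℕ} (h : Sp p ∨ Nr p) : Odd p := by
  rw [Nat.odd_iff]
  have := ok_mod4 h
  omega

lemma ok_ndvd14 {p : ℕ} (h : Sp p ∨ Nr p) : ¬ (p : ℤ) ∣ 14 := by
  intro hd
  have h1 : p ∣ 14 := by exact_mod_cast hd
  have h2 := Nat.le_of_dvd (by norm_num) h1
  have h3 := ok_mod4 h
  have h4 := (ok_prime h).two_le
  interval_cases p <;> omega

lemma ok_ndvd2 {p : ℕ} (h : Sp p ∨ Nr p) : ¬ (p : ℤ) ∣ 2 := by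
  intro hd
  exact ok_ndvd14 h (hd.trans ⟨7, by norm_num⟩)

lemma ok_ndvd3 {p : ℕ} (h : Sp p ∨ Nr p) : ¬ (p : ℤ) ∣ 3 := by
  intro hd
  have h1 : p ∣ 3 := by exact_mod_cast hd
  have h2 := Nat.le_of_dvd (by norm_num) h1
  have h3 := ok_mod4 h
  have h4 := (ok_prime h).two_le
  omega

lemma ok_pint {p : ℕ} (h : Sp p ∨ Nr p) : Prime (p : ℤ) := Nat.prime_iff_prime_int.1 (ok_prime h)

lemma jac_pr (J : Finset ℕ) (r : ℕ) :
    jacobiSym ((pr J : ℕ) : ℤ) r = ∏ p ∈ J, jacobiSym (p : ℤ) r := by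
  classical
  induction J using Finset.induction_on with
  | empty => simp [pr, jacobiSym.one_left]
  | insert p J hp ih =>
    have h1 : pr (insert p J) = p * pr J := by rw [pr, pr, Finset.prod_insert hp]
    rw [h1, Nat.cast_mul, jacobiSym.mul_left, ih, Finset.prod_insert hp]

lemma jac_sq {p r : ℕ} (hp : Sp p ∨ Nr p) (hr : Sp r ∨ Nr r) (h : p ≠ r) :
    jacobiSym (p : ℤ) r * jacobiSym (p : ℤ) r = 1 := by
  have h1 : (p : ℤ).gcd r = 1 := by
    rw [Int.gcd_natCast_natCast]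
    exact (Nat.coprime_primes (ok_prime hp) (ok_prime hr)).2 h
  have := jacobiSym.sq_one h1
  rwa [sq] at this

lemma jac_recip {p r : ℕ} (hp : Sp p ∨ Nr p) (hr : Sp r ∨ Nr r) :
    jacobiSym (p : ℤ) r = jacobiSym (r : ℤ) p :=
  jacobiSym.quadratic_reciprocity_one_mod_four (ok_mod4 hp) (ok_odd hr)

/-- the symbol of the change by the flips in `J` -/
noncomputable def sg' (P J : Finset ℕ) (r : ℕ) : ℤ :=
  if r ∈ J then jacobiSym ((pr (P \ J) : ℕ) : ℤ) r else jacobiSym ((pr J : ℕ) : ℤ) r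

open Classical in
/-- the number of flips of the second kind -/
noncomputable def nx (J : Finset ℕ) : ℕ := (J.filter fun p => X2 p).card

lemma spl_sub (P : Finset ℕ) : spl P ⊆ P := Finset.filter_subset _ _

lemma inr_sub (P : Finset ℕ) : inr P ⊆ P := Finset.filter_subset _ _

section

variable {P : Finset ℕ} (hP : Gd P)

include hP

lemma mem_cases {p : ℕ} (hp : p ∈ P) : p ∈ spl P ∨ p ∈ inr P := by
  rcases hP.1 p hp with h | h
  · left
    rw [spl, Finset.mem_filter]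
    exact ⟨hp, h.2.1⟩
  · right
    rw [inr, Finset.mem_filter]
    exact ⟨hp, h.2.1⟩

omit hP in
lemma spl_inr {p : ℕ} (h1 : p ∈ spl P) (h2 : p ∈ inr P) : False := by
  rw [spl, Finset.mem_filter] at h1
  rw [inr, Finset.mem_filter] at h2
  omega

omit hP in
lemma disj_si : Disjoint (spl P) (inr P) := by
  rw [Finset.disjoint_left]
  exact fun a h1 h2 => spl_inr h1 h2

lemma P_eq : P = spl P ∪ inr P := by
  ext p
  rw [Finset.mem_union]
  constructor
  · exact fun h => mem_cases hP h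
  · exact fun h => h.elim (fun h => spl_sub P h) (fun h => inr_sub P h)

lemma sp_of {p : ℕ} (h : p ∈ spl P) : Sp p := by
  rw [spl, Finset.mem_filter] at h
  rcases hP.1 p h.1 with h1 | h1
  · exact h1
  · have := h1.2.1
    omega

lemma nr_of {p : ℕ} (h : p ∈ inr P) : Nr p := by
  rw [inr, Finset.mem_filter] at h
  rcases hP.1 p h.1 with h1 | h1
  · have := h1.2.1
    omega
  · exact h1

lemma ndvd2 (hp : S_SOLP) {q : ℤ × ℤ} (hq : q ∈ Sol3 P) {p : ℕ} (hpP : p ∈ P) :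
    ¬ (p : ℤ) ∣ q.2 := by
  intro hd
  have h1 := (hp P hP q hq).1 p hpP
  have h2 : jacobiSym q.2 p = 0 := by
    rw [jacobiSym.eq_zero_iff]
    refine ⟨(ok_prime (hP.1 p hpP)).ne_zero, ?_⟩
    intro hg
    have h3 : (p : ℤ) ∣ (q.2.gcd p : ℤ) := Int.dvd_coe_gcd hd dvd_rfl
    rw [hg] at h3
    exact (ok_prime (hP.1 p hpP)).one_lt.ne' (Nat.dvd_one.1 (Int.natCast_dvd_natCast.1 h3))
  rcases h1 with h1 | h1 <;> rw [h2] at h1 <;> norm_num at h1

omit hP in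
lemma dvd_pr {p : ℕ} (hpP : p ∈ P) : (p : ℤ) ∣ (pr P : ℤ) := by
  have : p ∣ pr P := Finset.dvd_prod_of_mem _ hpP
  exact_mod_cast this

lemma ndvd1 (hp : S_SOLP) {q : ℤ × ℤ} (hq : q ∈ Sol3 P) {p : ℕ} (hpP : p ∈ P) :
    ¬ (p : ℤ) ∣ q.1 := by
  intro hd
  have h1 := hq.1
  have hpp := ok_pint (hP.1 p hpP)
  obtain ⟨k, hk⟩ := dvd_pr hpP
  obtain ⟨l, hl⟩ := hd
  have h2 : (p : ℤ) ∣ 14 * q.2 ^ 2 := ⟨9 * k - q.1 * l, by
    rw [hk] at h1
    linear_combination -h1 - q.1 * hl⟩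
  rcases hpp.dvd_or_dvd h2 with h3 | h3
  · exact ok_ndvd14 (hP.1 p hpP) h3
  · exact ndvd2 hP hp hq hpP (hpp.dvd_of_dvd_pow h3)

lemma key {q q' : ℤ × ℤ} (hq : q ∈ Sol3 P) (hq' : q' ∈ Sol3 P) {p : ℕ} (hpP : p ∈ P) :
    (p : ℤ) ∣ q.1 * q'.2 - q'.1 * q.2 ∨ (p : ℤ) ∣ q.1 * q'.2 + q'.1 * q.2 := by
  apply (ok_pint (hP.1 p hpP)).dvd_or_dvd
  obtain ⟨k, hk⟩ := dvd_pr hpP
  have h1 := hq.1
  have h2 := hq'.1
  rw [hk] at h1 h2
  exact ⟨9 * k * (q'.2 ^ 2 - q.2 ^ 2), by linear_combination -q'.2 ^ 2 * h1 + q.2 ^ 2 * h2⟩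

/-- not both signs -/
lemma notboth (hp : S_SOLP) {q q' : ℤ × ℤ} (hq : q ∈ Sol3 P) (hq' : q' ∈ Sol3 P) {p : ℕ}
    (hpP : p ∈ P) (h1 : (p : ℤ) ∣ q.1 * q'.2 - q'.1 * q.2)
    (h2 : (p : ℤ) ∣ q.1 * q'.2 + q'.1 * q.2) : False := by
  have hpp := ok_pint (hP.1 p hpP)
  have h3 : (p : ℤ) ∣ 2 * (q.1 * q'.2) := by
    have := dvd_add h1 h2
    have e : q.1 * q'.2 - q'.1 * q.2 + (q.1 * q'.2 + q'.1 * q.2) = 2 * (q.1 * q'.2) := by ring
    rwa [e] at this
  rcases hpp.dvd_or_dvd h3 with h3 | h3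
  · exact ok_ndvd2 (hP.1 p hpP) h3
  rcases hpp.dvd_or_dvd h3 with h3 | h3
  · exact ndvd1 hP hp hq hpP h3
  · exact ndvd2 hP hp hq' hpP h3

/-- composition of congruences -/
lemma comp_same (hp : S_SOLP) {q q' q'' : ℤ × ℤ} (hq : q ∈ Sol3 P) {p : ℕ} (hpP : p ∈ P)
    (h : ((p : ℤ) ∣ q.1 * q'.2 - q'.1 * q.2 ∧ (p : ℤ) ∣ q.1 * q''.2 - q''.1 * q.2) ∨
      ((p : ℤ) ∣ q.1 * q'.2 + q'.1 * q.2 ∧ (p : ℤ) ∣ q.1 * q''.2 + q''.1 * q.2)) :
    (p : ℤ) ∣ q'.1 * q''.2 - q''.1 * q'.2 := by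
  have hpp := ok_pint (hP.1 p hpP)
  have h3 : (p : ℤ) ∣ q.2 * (q'.1 * q''.2 - q''.1 * q'.2) := by
    rcases h with ⟨⟨k, hk⟩, ⟨l, hl⟩⟩ | ⟨⟨k, hk⟩, ⟨l, hl⟩⟩
    · exact ⟨-k * q''.2 + l * q'.2, by linear_combination -q''.2 * hk + q'.2 * hl⟩
    · exact ⟨k * q''.2 - l * q'.2, by linear_combination q''.2 * hk - q'.2 * hl⟩
  exact (hpp.dvd_or_dvd h3).resolve_left (ndvd2 hP hp hq hpP)

lemma comp_diff (hp : S_SOLP) {q q' q'' : ℤ × ℤ} (hq : q' ∈ Sol3 P) {p : ℕ} (hpP : p ∈ P)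
    (h1 : (p : ℤ) ∣ q.1 * q'.2 - q'.1 * q.2) (h2 : (p : ℤ) ∣ q'.1 * q''.2 + q''.1 * q'.2) :
    (p : ℤ) ∣ q.1 * q''.2 + q''.1 * q.2 := by
  have hpp := ok_pint (hP.1 p hpP)
  obtain ⟨k, hk⟩ := h1
  obtain ⟨l, hl⟩ := h2
  have h3 : (p : ℤ) ∣ q'.2 * (q.1 * q''.2 + q''.1 * q.2) :=
    ⟨k * q''.2 + l * q.2, by linear_combination q''.2 * hk + q.2 * hl⟩
  exact (hpp.dvd_or_dvd h3).resolve_left (ndvd2 hP hp hq hpP)

lemma comp_diff' (hp : S_SOLP) {q q' q'' : ℤ × ℤ} (hq : q' ∈ Sol3 P) {p : ℕ} (hpP : p ∈ P)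
    (h1 : (p : ℤ) ∣ q.1 * q'.2 + q'.1 * q.2) (h2 : (p : ℤ) ∣ q'.1 * q''.2 - q''.1 * q'.2) :
    (p : ℤ) ∣ q.1 * q''.2 + q''.1 * q.2 := by
  have hpp := ok_pint (hP.1 p hpP)
  obtain ⟨k, hk⟩ := h1
  obtain ⟨l, hl⟩ := h2
  have h3 : (p : ℤ) ∣ q'.2 * (q.1 * q''.2 + q''.1 * q.2) :=
    ⟨k * q''.2 - l * q.2, by linear_combination q''.2 * hk - q.2 * hl⟩
  exact (hpp.dvd_or_dvd h3).resolve_left (ndvd2 hP hp hq hpP)

lemma comp_zero (hp : S_SOLP) {q q' q'' : ℤ × ℤ} (hq : q' ∈ Sol3 P) {p : ℕ} (hpP : p ∈ P)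
    (h1 : (p : ℤ) ∣ q.1 * q'.2 - q'.1 * q.2) (h2 : (p : ℤ) ∣ q'.1 * q''.2 - q''.1 * q'.2) :
    (p : ℤ) ∣ q.1 * q''.2 - q''.1 * q.2 := by
  have hpp := ok_pint (hP.1 p hpP)
  obtain ⟨k, hk⟩ := h1
  obtain ⟨l, hl⟩ := h2
  have h3 : (p : ℤ) ∣ q'.2 * (q.1 * q''.2 - q''.1 * q.2) :=
    ⟨k * q''.2 + l * q.2, by linear_combination q''.2 * hk + q.2 * hl⟩
  exact (hpp.dvd_or_dvd h3).resolve_left (ndvd2 hP hp hq hpP)

lemma comp_zero' (hp : S_SOLP) {q q' q'' : ℤ × ℤ} (hq : q' ∈ Sol3 P) {p : ℕ} (hpP : p ∈ P)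
    (h1 : (p : ℤ) ∣ q.1 * q'.2 + q'.1 * q.2) (h2 : (p : ℤ) ∣ q'.1 * q''.2 + q''.1 * q'.2) :
    (p : ℤ) ∣ q.1 * q''.2 - q''.1 * q.2 := by
  have hpp := ok_pint (hP.1 p hpP)
  obtain ⟨k, hk⟩ := h1
  obtain ⟨l, hl⟩ := h2
  have h3 : (p : ℤ) ∣ q'.2 * (q.1 * q''.2 - q''.1 * q.2) :=
    ⟨k * q''.2 - l * q.2, by linear_combination q''.2 * hk - q.2 * hl⟩
  exact (hpp.dvd_or_dvd h3).resolve_left (ndvd2 hP hp hq hpP)

/-- the product formula at one prime -/
lemma at_prime (hp : S_SOLP) {q : ℤ × ℤ} (hq : q ∈ Sol3 P) {p : ℕ} (hpP : p ∈ P) :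
    jacobiSym q.2 p = ∏ r ∈ P.erase p, jacobiSym q.2 r := by
  have h1 := (hp P hP q hq).1 p hpP
  have h2 := (hp P hP q hq).2
  rw [← Finset.mul_prod_erase P _ hpP] at h2
  rcases h1 with h1 | h1 <;> rw [h1] at h2 ⊢ <;> linarith

lemma flips (hb : S_SOLB1) (hp : S_SOLP) {q : ℤ × ℤ} (hq : q ∈ Sol3 P) (J : Finset ℕ)
    (hJ : J ⊆ spl P) : ∃ q' ∈ Sol3 P, (∀ p ∈ J, (p : ℤ) ∣ q.1 * q'.2 + q'.1 * q.2) ∧
    (∀ p ∈ P, p ∉ J → (p : ℤ) ∣ q.1 * q'.2 - q'.1 * q.2) ∧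
    (∀ r ∈ spl P, jacobiSym q'.2 r = jacobiSym q.2 r * sg' P J r) ∧
    jacobiSym q'.1 7 = jacobiSym q.1 7 * (-1) ^ nx J := by
  classical
  induction J using Finset.induction_on with
  | empty =>
    refine ⟨q, hq, by simp, fun p _ _ => by simp, fun r _ => ?_, ?_⟩
    · simp [sg', pr, jacobiSym.one_left]
    · simp [nx]
  | insert p J hpJ ih =>
    have hpS : p ∈ spl P := hJ (Finset.mem_insert_self _ _)
    have hpP : p ∈ P := spl_sub P hpS
    have hJS : J ⊆ spl P := (Finset.subset_insert _ _).trans hJ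
    have hJP : J ⊆ P := hJS.trans (spl_sub P)
    obtain ⟨q', hq', h1, h2, h3, h4⟩ := ih hJS
    obtain ⟨q'', hq'', k1, k2, k3, k4, k5⟩ := hb P hP p hpS q' hq'
    have hPc : P \ J = insert p (P \ insert p J) := by
      ext x
      simp only [Finset.mem_sdiff, Finset.mem_insert]
      constructor
      · rintro ⟨a, b⟩
        by_cases hx : x = p
        · exact Or.inl hx
        · exact Or.inr ⟨a, fun h => h.elim hx b⟩
      · rintro (rfl | ⟨a, b⟩)
        · exact ⟨hpP, hpJ⟩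
        · exact ⟨a, fun h => b (Or.inr h)⟩
    have hpn : p ∉ P \ insert p J := by simp
    have hpr1 : pr (P \ J) = p * pr (P \ insert p J) := by
      rw [hPc, pr, pr, Finset.prod_insert hpn]
    have hpr2 : pr (insert p J) = p * pr J := by rw [pr, pr, Finset.prod_insert hpJ]
    refine ⟨q'', hq'', ?_, ?_, ?_, ?_⟩
    · intro r hr
      rcases Finset.mem_insert.1 hr with rfl | hr
      · exact comp_diff hP hp hq' hpP (h2 r hpP hpJ) k1
      · have hrP := hJP hr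
        have hrp : r ≠ p := fun h => hpJ (h ▸ hr)
        exact comp_diff' hP hp hq' hrP (h1 r hr) (k2 r hrP hrp)
    · intro r hrP hr
      have hrp : r ≠ p := fun h => hr (h ▸ Finset.mem_insert_self _ _)
      have hrJ : r ∉ J := fun h => hr (Finset.mem_insert_of_mem h)
      exact comp_zero hP hp hq' hrP (h2 r hrP hrJ) (k2 r hrP hrp)
    · intro r hrS
      have hrP : r ∈ P := spl_sub P hrS
      by_cases hrp : r = p
      · subst hrp
        -- the sign at the inert primes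
        obtain ⟨c, hc, hcs⟩ : ∃ c : ℤ, (c = 1 ∨ c = -1) ∧ ∀ s ∈ inr P,
            jacobiSym q''.2 s = c * (jacobiSym (r : ℤ) s * jacobiSym q'.2 s) := by
          by_cases hx : X2 r
          · exact ⟨-1, Or.inr rfl, fun s hs => by rw [(k4 hx).2 s hs]; ring⟩
          · exact ⟨1, Or.inl rfl, fun s hs => by rw [(k5 hx).2 s hs]; ring⟩
        have hc1 : ∏ s ∈ P.erase r, (if s ∈ inr P then c else 1) = 1 := by
          rw [Finset.prod_ite, Finset.prod_const_one, mul_one, Finset.prod_const]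
          have : (P.erase r).filter (fun s => s ∈ inr P) = inr P := by
            ext s
            rw [Finset.mem_filter, Finset.mem_erase]
            constructor
            · exact fun h => h.2
            · intro h
              exact ⟨⟨fun h' => spl_inr hrS (h' ▸ h), inr_sub P h⟩, h⟩
          rw [this]
          rcases hc with rfl | rfl
          · exact one_pow _
          · exact hP.2.neg_one_pow
        have e0 : jacobiSym q''.2 r = (∏ s ∈ P.erase r, jacobiSym (r : ℤ) s) * jacobiSym q'.2 r := by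
          rw [at_prime hP hp hq'' hpP, at_prime hP hp hq' hpP, ← Finset.prod_mul_distrib,
            ← one_mul (∏ s ∈ P.erase r, jacobiSym (r : ℤ) s * jacobiSym q'.2 s), ← hc1,
            ← Finset.prod_mul_distrib]
          refine Finset.prod_congr rfl fun s hs => ?_
          rw [Finset.mem_erase] at hs
          by_cases hsi : s ∈ inr P
          · rw [if_pos hsi, hcs s hsi]
          · rw [if_neg hsi, one_mul]
            exact k3 s ((mem_cases hP hs.2).resolve_right hsi) hs.1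
        have e1 : ∏ s ∈ P.erase r, jacobiSym (r : ℤ) s =
            jacobiSym ((pr (P.erase r) : ℕ) : ℤ) r := by
          rw [jac_pr]
          refine Finset.prod_congr rfl fun s hs => ?_
          exact jac_recip (hP.1 r hpP) (hP.1 s (Finset.mem_of_mem_erase hs))
        have e2 : P.erase r = J ∪ (P \ insert r J) := by
          ext x
          simp only [Finset.mem_erase, Finset.mem_union, Finset.mem_sdiff, Finset.mem_insert]
          constructor
          · rintro ⟨a, b⟩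
            by_cases hx : x ∈ J
            · exact Or.inl hx
            · exact Or.inr ⟨b, fun h => h.elim a hx⟩
          · rintro (h | ⟨a, b⟩)
            · exact ⟨fun hh => hpJ (hh ▸ h), hJP h⟩
            · exact ⟨fun hh => b (Or.inl hh), a⟩
        have e3 : Disjoint J (P \ insert r J) := by
          rw [Finset.disjoint_left]
          intro x hx hx'
          exact (Finset.mem_sdiff.1 hx').2 (Finset.mem_insert_of_mem hx)
        have e4 : pr (P.erase r) = pr J * pr (P \ insert r J) := by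
          rw [e2, pr, pr, pr, Finset.prod_union e3]
        have e5 : jacobiSym ((pr J : ℕ) : ℤ) r * jacobiSym ((pr J : ℕ) : ℤ) r = 1 := by
          rw [jac_pr, ← Finset.prod_mul_distrib]
          refine Finset.prod_eq_one fun s hs => ?_
          exact jac_sq (hP.1 s (hJP hs)) (hP.1 r hpP) (fun h => hpJ (h ▸ hs))
        rw [e0, e1, e4, Nat.cast_mul, jacobiSym.mul_left, h3 r hpS, sg', sg', if_neg hpJ,
          if_pos (Finset.mem_insert_self _ _)]
        linear_combination (jacobiSym ((pr (P \ insert r J) : ℕ) : ℤ) r * jacobiSym q.2 r) * e5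
      · have e5 := jac_sq (hP.1 p hpP) (hP.1 r hrP) (Ne.symm hrp)
        rw [k3 r hrS hrp, h3 r hrS]
        by_cases hrJ : r ∈ J
        · rw [sg', sg', if_pos hrJ, if_pos (Finset.mem_insert_of_mem hrJ), hpr1, Nat.cast_mul,
            jacobiSym.mul_left]
          linear_combination (jacobiSym ((pr (P \ insert p J) : ℕ) : ℤ) r * jacobiSym q.2 r) * e5
        · have hr' : r ∉ insert p J := by
            rw [Finset.mem_insert]
            rintro (h | h)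
            · exact hrp h
            · exact hrJ h
          rw [sg', sg', if_neg hrJ, if_neg hr', hpr2, Nat.cast_mul, jacobiSym.mul_left]
          ring
    · by_cases hx : X2 p
      · have : nx (insert p J) = nx J + 1 := by
          rw [nx, nx, Finset.filter_insert, if_pos hx, Finset.card_insert_of_notMem]
          simp [hpJ]
        rw [(k4 hx).1, h4, this, pow_succ]
        ring
      · have : nx (insert p J) = nx J := by
          rw [nx, nx, Finset.filter_insert, if_neg hx]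
        rw [(k5 hx).1, h4, this]

lemma uniq (hc : S_SOLC) (hp : S_SOLP) {q q' q'' : ℤ × ℤ} (hq : q ∈ Sol3 P) (hq' : q' ∈ Sol3 P)
    (hq'' : q'' ∈ Sol3 P)
    (h : ∀ p ∈ P, ((p : ℤ) ∣ q.1 * q'.2 - q'.1 * q.2 ∧ (p : ℤ) ∣ q.1 * q''.2 - q''.1 * q.2) ∨
      ((p : ℤ) ∣ q.1 * q'.2 + q'.1 * q.2 ∧ (p : ℤ) ∣ q.1 * q''.2 + q''.1 * q.2)) : q' = q'' :=
  hc P hP q' hq' q'' hq'' fun p hpP => comp_same hP hp hq hpP (h p hpP)

open Classical in
/-- the set of primes where two representations differ -/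
noncomputable def Jd (P : Finset ℕ) (q q' : ℤ × ℤ) : Finset ℕ :=
  P.filter fun p => ¬ (p : ℤ) ∣ q.1 * q'.2 - q'.1 * q.2

omit hP in
lemma mem_Jd {q q' : ℤ × ℤ} {p : ℕ} :
    p ∈ Jd P q q' ↔ p ∈ P ∧ ¬ (p : ℤ) ∣ q.1 * q'.2 - q'.1 * q.2 := by
  rw [Jd, Finset.mem_filter]

end

end Pool.Agent.Y657.Z
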