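import Mathlib
import Pool.Agent.Z700.Defs3
import Pool.Agent.Y657.Z.Fix1

/-!
Z701-FIX, part 2: the remaining representations and their number; the case without inert primes.
-/

set_option autoImplicit false
set_option linter.unusedSectionVars false

namespace Pool.Agent.Y657.Z

open Finset Matrix
open Pool.Agent.Z700 (pr X2 Yd lres Sol3)
open Pool.Agent.Z701

/-- the condition of the remaining representations -/
def Cc (P : Finset ℕ) (q : ℤ × ℤ) : Prop :=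
  (q.1 : ZMod 7) = -(2 * be P) ∧ ∀ p ∈ spl P, jacobiSym q.2 p = 1

open Classical in
/-- the remaining representations -/
noncomputable def FS (P : Finset ℕ) : Finset (ℤ × ℤ) :=
  ((Ioo (-(9 * (pr P : ℤ))) (9 * (pr P : ℤ))) ×ˢ (Ioo (-(9 * (pr P : ℤ))) (9 * (pr P : ℤ)))).filter
    fun q => q ∈ Sol3 P ∧ Cc P q

lemma sol_ne {P : Finset ℕ} {q : ℤ × ℤ} (hq : q ∈ Sol3 P) : q.2 ≠ 0 := by
  intro h
  have h1 := hq.2.2.2
  rw [h, zero_sub] at h1
  exact hq.2.2.1 ((dvd_neg).1 h1)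

lemma sol_bd {P : Finset ℕ} {q : ℤ × ℤ} (hq : q ∈ Sol3 P) :
    q.1 ^ 2 < 9 * (pr P : ℤ) ∧ q.2 ^ 2 < 9 * (pr P : ℤ) := by
  have h1 := hq.1
  have h2 := sol_ne hq
  have h3 : 0 < q.2 ^ 2 := by positivity
  have h4 : 0 ≤ q.1 ^ 2 := by positivity
  constructor <;> linarith

lemma mem_Ioo_of_sq {b n : ℤ} (h : b ^ 2 < n) : b ∈ Ioo (-n) n := by
  rw [Finset.mem_Ioo]
  have h1 := Int.le_self_sq b
  have h2 := Int.le_self_sq (-b)
  rw [neg_sq] at h2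
  constructor <;> linarith

lemma mem_FS {P : Finset ℕ} {q : ℤ × ℤ} : q ∈ FS P ↔ q ∈ Sol3 P ∧ Cc P q := by
  classical
  rw [FS, Finset.mem_filter, Finset.mem_product]
  constructor
  · exact fun h => h.2
  · exact fun h => ⟨⟨mem_Ioo_of_sq (sol_bd h.1).1, mem_Ioo_of_sq (sol_bd h.1).2⟩, h⟩

lemma fs_inj {P : Finset ℕ} {q q' : ℤ × ℤ} (hq : q ∈ Sol3 P) (hq' : q' ∈ Sol3 P)
    (h : q.1 = q'.1) : q = q' := by
  have h1 := hq.1
  have h2 := hq'.1
  rw [← h] at h2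
  have h3 : (q.2 - q'.2) * (q.2 + q'.2) = 0 := by nlinarith
  rcases mul_eq_zero.1 h3 with h4 | h4
  · exact Prod.ext h (by linarith)
  · exfalso
    have h5 := hq.2.2.2
    have h6 := hq'.2.2.2
    rw [← h] at h6
    have h7 : q'.2 = -q.2 := by linarith
    rw [h7] at h6
    apply hq.2.2.1
    obtain ⟨k, hk⟩ := h5
    obtain ⟨l, hl⟩ := h6
    exact ⟨q.1 + k + l, by linarith⟩

lemma mem_flt {α : Type} {p : α → Prop} (inst : DecidablePred p) {s : Finset α} {a : α} :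
    a ∈ @Finset.filter α p inst s ↔ a ∈ s ∧ p a := Finset.mem_filter

lemma mem_FixS {P : Finset ℕ} {b : ℤ} : b ∈ FixS P ↔
    b ∈ Ioo (-(9 * (pr P : ℤ))) (9 * (pr P : ℤ)) ∧ (b % 4 = 1 ∧ (b : ZMod 7) = -(2 * be P) ∧
      ¬ (3 : ℤ) ∣ b ∧ ∃ y ∈ range (9 * pr P), 9 * (pr P : ℤ) = b ^ 2 + 14 * (y : ℤ) ^ 2 ∧
        (∀ p ∈ spl P, jacobiSym y p = 1) ∧
        ∀ q ∈ inr P, ∀ q' ∈ inr P, jacobiSym y q = jacobiSym y q') :=
  mem_flt _

lemma jac_abs {y : ℤ} {p : ℕ} (hp : Sp p ∨ Nr p) : jacobiSym (y.natAbs : ℤ) p = jacobiSym y p := by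
  rcases le_total 0 y with h7 | h7
  · rw [Int.natAbs_of_nonneg h7]
  · rw [Int.ofNat_natAbs_of_nonpos h7, jacobiSym.neg _ (ok_odd hp),
      ZMod.χ₄_nat_one_mod_four (ok_mod4 hp), one_mul]

lemma jac_neg {y : ℤ} {p : ℕ} (hp : Sp p ∨ Nr p) : jacobiSym (-y) p = jacobiSym y p := by
  rw [jacobiSym.neg _ (ok_odd hp), ZMod.χ₄_nat_one_mod_four (ok_mod4 hp), one_mul]

lemma fixS_card {P : Finset ℕ} (hP : Gd P)
    (hin : ∀ q ∈ Sol3 P, (∀ p ∈ spl P, jacobiSym q.2 p = 1) →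
      ∀ a ∈ inr P, ∀ a' ∈ inr P, jacobiSym q.2 a = jacobiSym q.2 a') :
    (FixS P).card = (FS P).card := by
  classical
  have himg : FixS P = (FS P).image Prod.fst := by
    ext b
    rw [Finset.mem_image, mem_FixS]
    constructor
    · rintro ⟨hb, h1, h2, h3, y, hy, h4, h5, -⟩
      have h6 : (3 : ℤ) ∣ (b - y) * (b + y) :=
        ⟨3 * (pr P : ℤ) - 5 * (y : ℤ) ^ 2, by linear_combination -h4⟩
      have hpr3 : Prime (3 : ℤ) := Int.prime_three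
      rcases hpr3.dvd_or_dvd h6 with h7 | h7
      · refine ⟨(b, (y : ℤ)), ?_, rfl⟩
        rw [mem_FS]
        refine ⟨⟨h4, h1, h3, ?_⟩, h2, h5⟩
        have := (dvd_neg).2 h7
        rwa [neg_sub] at this
      · refine ⟨(b, -(y : ℤ)), ?_, rfl⟩
        rw [mem_FS]
        refine ⟨⟨by simpa using h4, h1, h3, ?_⟩, h2, fun p hp => ?_⟩
        · have := (dvd_neg).2 h7
          have e : -(b + (y : ℤ)) = -(y : ℤ) - b := by ring
          rwa [e] at this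
        · show jacobiSym (-(y : ℤ)) p = 1
          rw [jac_neg (hP.1 p (spl_sub P hp)), h5 p hp]
    · rintro ⟨q, hq, rfl⟩
      rw [mem_FS] at hq
      obtain ⟨hq, h2, h5⟩ := hq
      refine ⟨mem_Ioo_of_sq (sol_bd hq).1, hq.2.1, h2, hq.2.2.1, q.2.natAbs, ?_, ?_, ?_, ?_⟩
      · rw [Finset.mem_range]
        have h3 := Finset.mem_Ioo.1 (mem_Ioo_of_sq (sol_bd hq).2)
        omega
      · rw [Int.natCast_natAbs, sq_abs]
        exact hq.1
      · intro p hp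
        rw [jac_abs (hP.1 p (spl_sub P hp))]
        exact h5 p hp
      · intro a ha a' ha'
        rw [jac_abs (hP.1 a (inr_sub P ha)), jac_abs (hP.1 a' (inr_sub P ha'))]
        exact hin q hq h5 a ha a' ha'
  rw [himg, Finset.card_image_of_injOn]
  intro q hq q' hq' h
  exact fs_inj (mem_FS.1 hq).1 (mem_FS.1 hq').1 h

instance : Fact (Nat.Prime 7) := ⟨by norm_num⟩

lemma chi7 : ∀ c z : ZMod 7, c ≠ 0 → z ^ 2 = c ^ 2 →
    (quadraticChar (ZMod 7) z = 1 ∨ quadraticChar (ZMod 7) z = -1) ∧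
    (z = c ↔ quadraticChar (ZMod 7) z = quadraticChar (ZMod 7) c) := by
  decide

lemma jac7 (a : ℤ) : jacobiSym a 7 = quadraticChar (ZMod 7) (a : ZMod 7) := by
  rw [← jacobiSym.legendreSym.to_jacobiSym]
  rfl

lemma sq7_spl {p : ℕ} (h : Sp p) : sq7 p ^ 2 = (p : ZMod 7) := by
  have h1 : (p : ZMod 7) = ((p % 7 : ℕ) : ZMod 7) := by rw [ZMod.natCast_mod]
  rw [h1]
  rcases h.2.2 with h2 | h2 | h2 <;> simp only [sq7, h2] <;> decide

lemma sq7_inr {p : ℕ} (h : Nr p) : 3 * sq7 p ^ 2 = (p : ZMod 7) := by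
  have h1 : (p : ZMod 7) = ((p % 7 : ℕ) : ZMod 7) := by rw [ZMod.natCast_mod]
  rw [h1]
  rcases h.2.2 with h2 | h2 | h2 <;> simp only [sq7, h2] <;> decide

lemma sq7_ne (p : ℕ) : sq7 p ≠ 0 := by
  unfold sq7
  split_ifs <;> decide

lemma be_sq {P : Finset ℕ} (hP : Gd P) : be P ^ 2 = 4 * (pr P : ZMod 7) := by
  have e1 : ∏ p ∈ spl P, sq7 p ^ 2 = ∏ p ∈ spl P, (p : ZMod 7) :=
    Finset.prod_congr rfl fun p hp => sq7_spl (sp_of hP hp)
  have e2 : ∏ p ∈ inr P, (3 * sq7 p ^ 2) = ∏ p ∈ inr P, (p : ZMod 7) :=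
    Finset.prod_congr rfl fun p hp => sq7_inr (nr_of hP hp)
  rw [Finset.prod_mul_distrib, Finset.prod_const] at e2
  have e3 : ((3 : ZMod 7) ^ ((inr P).card / 2)) ^ 2 = 3 ^ (inr P).card := by
    rw [← pow_mul, Nat.div_mul_cancel hP.2.two_dvd]
  have e4 : ∏ p ∈ P, sq7 p ^ 2 = (∏ p ∈ spl P, sq7 p ^ 2) * ∏ p ∈ inr P, sq7 p ^ 2 := by
    conv_lhs => rw [P_eq hP]
    rw [Finset.prod_union disj_si]
  have e5 : ∏ p ∈ P, (p : ZMod 7) = (∏ p ∈ spl P, (p : ZMod 7)) * ∏ p ∈ inr P, (p : ZMod 7) := by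
    conv_lhs => rw [P_eq hP]
    rw [Finset.prod_union disj_si]
  rw [be, mul_pow, mul_pow, e3, ← Finset.prod_pow, e4, e1, pr, Nat.cast_prod, e5, ← e2]
  ring

lemma be_ne (P : Finset ℕ) : be P ≠ 0 := by
  rw [be]
  refine mul_ne_zero (mul_ne_zero (by decide) (pow_ne_zero _ (by decide)))
    (Finset.prod_ne_zero_iff.2 fun p _ => sq7_ne p)

lemma eps {P : Finset ℕ} (hP : Gd P) : ∃ ε : ℤ, (ε = 1 ∨ ε = -1) ∧
    ∀ q ∈ Sol3 P, (jacobiSym q.1 7 = 1 ∨ jacobiSym q.1 7 = -1) ∧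
      ((q.1 : ZMod 7) = -(2 * be P) ↔ jacobiSym q.1 7 = ε) := by
  have hc : -(2 * be P) ≠ 0 := neg_ne_zero.2 (mul_ne_zero (by decide) (be_ne P))
  refine ⟨quadraticChar (ZMod 7) (-(2 * be P)), (chi7 _ _ hc rfl).1, fun q hq => ?_⟩
  have h1 : ((q.1 : ℤ) : ZMod 7) ^ 2 = (-(2 * be P)) ^ 2 := by
    have h2 := congrArg (fun x : ℤ => (x : ZMod 7)) hq.1
    simp only [Int.cast_mul, Int.cast_add, Int.cast_pow, Int.cast_natCast, Int.cast_ofNat] at h2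
    have h3 : (14 : ZMod 7) = 0 := by decide
    have h4 : (9 : ZMod 7) = 16 := by decide
    rw [h3, zero_mul, add_zero, h4] at h2
    rw [neg_sq, mul_pow, be_sq hP, ← h2]
    ring
  have := chi7 _ _ hc h1
  rw [jac7]
  exact this

section

variable {P : Finset ℕ} (hP : Gd P)

include hP

lemma sg_one_of_eq (hp : S_SOLP) {q : ℤ × ℤ} (hq : q ∈ Sol3 P) {r : ℕ} (hr : r ∈ P) {s : ℤ}
    (h : jacobiSym q.2 r = jacobiSym q.2 r * s) : s = 1 := by
  rcases (hp P hP q hq).1 r hr with h1 | h1 <;> rw [h1] at h <;> linarith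

open Classical in
/-- the code of a representation -/
noncomputable def code (P : Finset ℕ) (p0 : ℕ) (q : ℤ × ℤ) : Finset ℕ :=
  if jacobiSym q.1 7 = 1 then insert p0 (P.filter fun r => jacobiSym q.2 r = -1)
  else (P.filter fun r => jacobiSym q.2 r = -1).erase p0

omit hP in
lemma code_p0 (p0 : ℕ) (q : ℤ × ℤ) : p0 ∈ code P p0 q ↔ jacobiSym q.1 7 = 1 := by
  classical
  rw [code]
  split_ifs with h
  · simp [h]
  · simp [h]

omit hP in
lemma code_r {p0 r : ℕ} (hr : r ∈ P) (hr0 : r ≠ p0) (q : ℤ × ℤ) :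
    r ∈ code P p0 q ↔ jacobiSym q.2 r = -1 := by
  classical
  rw [code]
  split_ifs with h
  · simp [hr, hr0]
  · simp [hr, hr0]

omit hP in
lemma code_sub {p0 : ℕ} (h0 : p0 ∈ P) (q : ℤ × ℤ) : code P p0 q ⊆ P := by
  classical
  rw [code]
  split_ifs with h
  · exact Finset.insert_subset h0 (Finset.filter_subset _ _)
  · exact (Finset.erase_subset _ _).trans (Finset.filter_subset _ _)

end

end Pool.Agent.Y657.Z
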