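import Mathlib
import Pool.Agent.Z700.Defs3
import Pool.Agent.Y657.Z.Fix2

/-!
Z701-FIX, part 3: the parity of the number of the remaining representations, no inert primes.
-/

set_option autoImplicit false
set_option linter.unusedSectionVars false

namespace Pool.Agent.Y657.Z

open Finset Matrix
open Pool.Agent.Z700 (pr X2 Yd lres Sol3)
open Pool.Agent.Z701

section

variable {P : Finset ℕ} (hP : Gd P) (hS : spl P = P)

include hP hS

lemma rel0 (hb : S_SOLB1) (hc : S_SOLC) (hp : S_SOLP) {q q' : ℤ × ℤ} (hq : q ∈ Sol3 P)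
    (hq' : q' ∈ Sol3 P) : (∀ r ∈ P, jacobiSym q'.2 r = jacobiSym q.2 r * sg' P (Jd P q q') r) ∧
    jacobiSym q'.1 7 = jacobiSym q.1 7 * (-1) ^ nx (Jd P q q') := by
  classical
  obtain ⟨q'', hq'', h1, h2, h3, h4⟩ := flips hP hb hp hq (Jd P q q')
    (by rw [hS]; exact Finset.filter_subset _ _)
  have he : q' = q'' := by
    refine uniq hP hc hp hq hq' hq'' fun p hpP => ?_
    by_cases hd : (p : ℤ) ∣ q.1 * q'.2 - q'.1 * q.2
    · left
      refine ⟨hd, h2 p hpP ?_⟩
      rw [mem_Jd]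
      exact fun h => h.2 hd
    · right
      refine ⟨(key hP hq hq' hpP).resolve_left hd, h1 p ?_⟩
      rw [mem_Jd]
      exact ⟨hpP, hd⟩
  subst he
  rw [hS] at h3
  exact ⟨h3, h4⟩

lemma sig_inj0 (hb : S_SOLB1) (hc : S_SOLC) (hp : S_SOLP) (hK : KerT P) (hodd : Odd (nx P))
    {q q' : ℤ × ℤ} (hq : q ∈ Sol3 P) (hq' : q' ∈ Sol3 P)
    (h1 : ∀ r ∈ P, jacobiSym q.2 r = jacobiSym q'.2 r) (h2 : jacobiSym q.1 7 = jacobiSym q'.1 7) :
    q = q' := by
  classical
  obtain ⟨k1, k2⟩ := rel0 hP hS hb hc hp hq hq'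
  set J := Jd P q q' with hJ
  have hJP : J ⊆ P := Finset.filter_subset _ _
  have hs : ∀ r ∈ P, sg' P J r = 1 := fun r hr =>
    sg_one_of_eq hP hp hq hr (by rw [← k1 r hr, h1 r hr])
  have h3 := hK J hJP
    (fun p hp' => by
      have hp1 := Finset.mem_sdiff.1 hp'
      have := hs p hp1.1
      rwa [sg', if_neg hp1.2] at this)
    (fun p hp' => by
      have := hs p (hJP hp')
      rwa [sg', if_pos hp'] at this)
  rcases h3 with h3 | h3
  · refine hc P hP q hq q' hq' fun p hpP => ?_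
    by_contra hd
    have : p ∈ J := by rw [hJ, mem_Jd]; exact ⟨hpP, hd⟩
    rw [h3] at this
    exact absurd this (Finset.notMem_empty p)
  · exfalso
    rw [h3, hodd.neg_one_pow, ← h2] at k2
    obtain ⟨ε, _, hε⟩ := eps hP
    rcases (hε q hq).1 with h | h <;> rw [h] at k2 <;> norm_num at k2

lemma code_inj0 (hb : S_SOLB1) (hc : S_SOLC) (hp : S_SOLP) (hK : KerT P) (hodd : Odd (nx P))
    {p0 : ℕ} (h0 : p0 ∈ P) {q q' : ℤ × ℤ} (hq : q ∈ Sol3 P) (hq' : q' ∈ Sol3 P)
    (h : code P p0 q = code P p0 q') : q = q' := by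
  obtain ⟨ε, _, hε⟩ := eps hP
  have h1 : ∀ r ∈ P, r ≠ p0 → jacobiSym q.2 r = jacobiSym q'.2 r := by
    intro r hr hr0
    have k1 := code_r (P := P) hr hr0 q
    have k2 := code_r (P := P) hr hr0 q'
    rw [h, k2] at k1
    rcases (hp P hP q hq).1 r hr with a | a <;> rcases (hp P hP q' hq').1 r hr with b | b
    · rw [a, b]
    · exact absurd (k1.1 b) (by rw [a]; norm_num)
    · exact absurd (k1.2 a) (by rw [b]; norm_num)
    · rw [a, b]
  refine sig_inj0 hP hS hb hc hp hK hodd hq hq' ?_ ?_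
  · intro r hr
    by_cases hr0 : r = p0
    · subst hr0
      rw [at_prime hP hp hq hr, at_prime hP hp hq' hr]
      refine Finset.prod_congr rfl fun s hs => ?_
      rw [Finset.mem_erase] at hs
      exact h1 s hs.2 hs.1
    · exact h1 r hr hr0
  · have k1 := code_p0 (P := P) p0 q
    have k2 := code_p0 (P := P) p0 q'
    rw [h, k2] at k1
    rcases (hε q hq).1 with a | a <;> rcases (hε q' hq').1 with b | b
    · rw [a, b]
    · exact absurd (k1.2 a) (by rw [b]; norm_num)
    · exact absurd (k1.1 b) (by rw [a]; norm_num)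
    · rw [a, b]

lemma card_one0 (hb : S_SOLB1) (hc : S_SOLC) (hp : S_SOLP) (hK : KerT P) (hodd : Odd (nx P))
    (hne : P.Nonempty) (hSol : (Sol3 P).Nonempty) : (FS P).card = 1 := by
  classical
  obtain ⟨p0, h0⟩ := hne
  obtain ⟨q0, hq0⟩ := hSol
  obtain ⟨ε, hε1, hε⟩ := eps hP
  have hfl := fun J (hJ : J ⊆ spl P) => flips hP hb hp hq0 J hJ
  rw [hS] at hfl
  choose! φ hφ using hfl
  have hφinj : ∀ J K, J ⊆ P → K ⊆ P → φ J = φ K → J ⊆ K := by
    intro J K hJ hK' he p hpJ
    by_contra hpK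
    have k1 := (hφ J hJ).2.1 p hpJ
    have k2 := (hφ K hK').2.2.1 p (hJ hpJ) hpK
    rw [← he] at k2
    exact notboth hP hp hq0 (hφ J hJ).1 (hJ hpJ) k2 k1
  have hsurj : Set.SurjOn (fun J => code P p0 (φ J)) (P.powerset : Set (Finset ℕ))
      (P.powerset : Set (Finset ℕ)) := by
    refine Finset.surjOn_of_injOn_of_card_le _ ?_ ?_ le_rfl
    · intro J _
      exact Finset.mem_coe.2 (Finset.mem_powerset.2 (code_sub h0 _))
    · intro J hJ K hK' he
      have hJ1 := Finset.mem_powerset.1 (Finset.mem_coe.1 hJ)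
      have hK1 := Finset.mem_powerset.1 (Finset.mem_coe.1 hK')
      have := code_inj0 hP hS hb hc hp hK hodd h0 (hφ J hJ1).1 (hφ K hK1).1 he
      exact Finset.Subset.antisymm (hφinj J K hJ1 hK1 this) (hφinj K J hK1 hJ1 this.symm)
  set A : Finset ℕ := if ε = 1 then {p0} else ∅ with hA
  have hAP : A ∈ (P.powerset : Set (Finset ℕ)) := by
    refine Finset.mem_coe.2 (Finset.mem_powerset.2 ?_)
    rw [hA]
    split_ifs
    · exact Finset.singleton_subset_iff.2 h0
    · exact Finset.empty_subset _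
  obtain ⟨J, hJ, hJA⟩ := hsurj hAP
  have hJA' : code P p0 (φ J) = A := hJA
  have hJ1 := Finset.mem_powerset.1 (Finset.mem_coe.1 hJ)
  have hsol := (hφ J hJ1).1
  have hC' : (((φ J).1 : ℤ) : ZMod 7) = -(2 * be P) ∧ ∀ r ∈ P, jacobiSym (φ J).2 r = 1 := by
    have h7 : jacobiSym (φ J).1 7 = ε := by
      have k1 := code_p0 (P := P) p0 (φ J)
      rw [hJA'] at k1
      rcases hε1 with e | e
      · have : p0 ∈ A := by rw [hA, if_pos e]; exact Finset.mem_singleton_self _
        rw [e]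
        exact k1.1 this
      · have : p0 ∉ A := by rw [hA, if_neg (by rw [e]; norm_num)]; exact Finset.notMem_empty _
        rw [e]
        exact (hε _ hsol).1.resolve_left fun h => this (k1.2 h)
    have h8 : ∀ r ∈ P, r ≠ p0 → jacobiSym (φ J).2 r = 1 := by
      intro r hr hr0
      have k1 := code_r (P := P) hr hr0 (φ J)
      rw [hJA'] at k1
      have : r ∉ A := by
        rw [hA]
        split_ifs
        · simpa using hr0
        · exact Finset.notMem_empty _
      exact ((hp P hP _ hsol).1 r hr).resolve_right fun h => this (k1.2 h)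
    refine ⟨(hε _ hsol).2.2 h7, fun r hr => ?_⟩
    by_cases hr0 : r = p0
    · subst hr0
      rw [at_prime hP hp hsol hr]
      refine Finset.prod_eq_one fun s hs => ?_
      rw [Finset.mem_erase] at hs
      exact h8 s hs.2 hs.1
    · exact h8 r hr hr0
  have hC : Cc P (φ J) := ⟨hC'.1, fun r hr => hC'.2 r (spl_sub P hr)⟩
  rw [Finset.card_eq_one]
  refine ⟨φ J, ?_⟩
  ext q
  rw [mem_FS, Finset.mem_singleton]
  constructor
  · rintro ⟨h1, h2⟩
    refine sig_inj0 hP hS hb hc hp hK hodd h1 hsol (fun r hr => ?_) ?_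
    · rw [h2.2 r (by rw [hS]; exact hr), hC'.2 r hr]
    · rw [(hε _ h1).2.1 h2.1, (hε _ hsol).2.1 hC.1]
  · rintro rfl
    exact ⟨hsol, hC⟩

lemma card_even0 (hb : S_SOLB1) (hc : S_SOLC) (hp : S_SOLP) (hK : ¬ KerT P) (hodd : Odd (nx P)) :
    Even (FS P).card := by
  classical
  obtain ⟨ε, hε1, hε⟩ := eps hP
  -- a nontrivial element of the kernel
  obtain ⟨J, hJP, hJ0, hJs, hJn⟩ : ∃ J ⊆ P, J ≠ ∅ ∧ (∀ r ∈ P, sg' P J r = 1) ∧ Even (nx J) := by
    rw [KerT, Pool.Agent.Z700.KerT] at hK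
    push Not at hK
    obtain ⟨J, hJP, h1, h2, h3, h4⟩ := hK
    have h3' : J ≠ ∅ := by
      intro h
      simp [h] at h3
    have hsum : nx J + nx (P \ J) = nx P := by
      rw [nx, nx, nx, ← Finset.card_union_of_disjoint, ← Finset.filter_union,
        Finset.union_sdiff_of_subset hJP]
      rw [Finset.disjoint_left]
      intro x hx hx'
      exact (Finset.mem_sdiff.1 (Finset.mem_filter.1 hx').1).2 (Finset.mem_filter.1 hx).1
    by_cases he : Even (nx J)
    · refine ⟨J, hJP, h3', fun r hr => ?_, he⟩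
      rw [sg']
      split_ifs with h
      · exact h2 r h
      · exact h1 r (Finset.mem_sdiff.2 ⟨hr, h⟩)
    · refine ⟨P \ J, Finset.sdiff_subset, ?_, fun r hr => ?_, ?_⟩
      · intro h
        rw [Finset.sdiff_eq_empty_iff_subset] at h
        exact h4 (Finset.Subset.antisymm hJP h)
      · rw [sg', Finset.sdiff_sdiff_eq_self hJP]
        split_ifs with h
        · exact h1 r h
        · have : r ∈ J := by
            by_contra hc'
            exact h (Finset.mem_sdiff.2 ⟨hr, hc'⟩)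
          exact h2 r this
      · rw [Nat.not_even_iff_odd] at he
        rw [← hsum] at hodd
        rw [Nat.odd_add] at hodd
        exact hodd.1 he
  have hfl := fun (q : ℤ × ℤ) (hq : q ∈ Sol3 P) => flips hP hb hp hq J (by rw [hS]; exact hJP)
  choose! φ hφ using hfl
  have hmem : ∀ q ∈ FS P, φ q ∈ FS P := by
    intro q hq
    rw [mem_FS] at hq ⊢
    obtain ⟨h1, h2, h3⟩ := hq
    obtain ⟨k0, k1, k2, k3, k4⟩ := hφ q h1
    refine ⟨k0, ?_, fun r hr => ?_⟩
    · rw [hJn.neg_one_pow, mul_one] at k4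
      rw [(hε _ k0).2, k4, ← (hε _ h1).2]
      exact h2
    · rw [k3 r hr, h3 r hr, hJs r (spl_sub P hr), mul_one]
  have hsum : ∑ q ∈ FS P, (1 : ZMod 2) = 0 := by
    refine Finset.sum_involution (fun q _ => φ q) ?_ ?_ ?_ ?_
    · intro q _
      decide
    · intro q hq _ he
      have he' : φ q = q := he
      obtain ⟨h1, h2⟩ := mem_FS.1 hq
      obtain ⟨r, hr⟩ := Finset.nonempty_iff_ne_empty.2 hJ0
      have k1 := (hφ q h1).2.1 r hr
      rw [he'] at k1
      refine notboth hP hp h1 h1 (hJP hr) ?_ k1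
      simp
    · intro q hq
      exact hmem q hq
    · intro q hq
      obtain ⟨h1, h2⟩ := mem_FS.1 hq
      obtain ⟨k0, k1, k2, k3, k4⟩ := hφ q h1
      obtain ⟨l0, l1, l2, l3, l4⟩ := hφ (φ q) k0
      refine uniq hP hc hp k0 l0 h1 fun p hpP => ?_
      by_cases hpJ : p ∈ J
      · right
        refine ⟨l1 p hpJ, ?_⟩
        have := k1 p hpJ
        rwa [add_comm] at this
      · left
        refine ⟨l2 p hpP hpJ, ?_⟩
        have := (dvd_neg).2 (k2 p hpP hpJ)
        rwa [neg_sub] at this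
  rw [Finset.sum_const, nsmul_one] at hsum
  exact (ZMod.natCast_eq_zero_iff_even).1 hsum

end

theorem t_FIX0 (ha : S_SOLA0) (hb : S_SOLB1) (hc : S_SOLC) (hp : S_SOLP) :
    Pool.Agent.Z701.S_FIX0 := by
  classical
  intro P hPs hne
  have hS : spl P = P := by
    rw [spl, Finset.filter_eq_self]
    exact fun p hp => (hPs p hp).2.1
  have hI : inr P = ∅ := by
    rw [inr, Finset.filter_eq_empty_iff]
    intro p hp
    have := (hPs p hp).2.1
    omega
  have hP : Gd P := ⟨fun p hp => Or.inl (hPs p hp), by rw [hI]; simp⟩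
  rw [fixS_card hP (by
    intro q _ _ a ha
    rw [hI] at ha
    exact absurd ha (Finset.notMem_empty a))]
  have hA := ha P hPs
  constructor
  · intro h
    have hSol : (Sol3 P).Nonempty := by
      have h1 : (FS P).Nonempty := by
        rw [← Finset.card_pos]
        exact h.pos
      obtain ⟨q, hq⟩ := h1
      exact ⟨q, (mem_FS.1 hq).1⟩
    have hodd := hA.1 hSol
    refine ⟨hodd, ?_⟩
    by_contra hK
    have := card_even0 hP hS hb hc hp hK hodd
    exact (Nat.not_even_iff_odd.2 h) this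
  · rintro ⟨hodd, hK⟩
    rw [card_one0 hP hS hb hc hp hK hodd hne (hA.2 hodd)]
    exact odd_one

end Pool.Agent.Y657.Z
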