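import Mathlib
import Pool.Agent.Z700.Defs3
import Pool.Agent.Y657.Z.Fix2

/-!
Z701-FIX, part 4: two inert primes, the flips and the relation between two representations.
-/

set_option autoImplicit false
set_option linter.unusedSectionVars false

namespace Pool.Agent.Y657.Z

open Finset Matrix
open Pool.Agent.Z700 (pr X2 Yd lres Sol3)
open Pool.Agent.Z701

lemma pr_dvd {S : Finset ℕ} {Y : ℤ} (h1 : ∀ p ∈ S, p.Prime) (h2 : ∀ p ∈ S, (p : ℤ) ∣ Y) :
    ((pr S : ℕ) : ℤ) ∣ Y := by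
  rw [Int.natCast_dvd, pr]
  refine Finset.prod_primes_dvd _ (fun p hp => (h1 p hp).prime) fun p hp => ?_
  exact Int.natCast_dvd.1 (h2 p hp)

lemma nine {b y : ℤ} {m : ℤ} (h : 9 * m = b ^ 2 + 14 * y ^ 2) (h1 : ¬ (3 : ℤ) ∣ b)
    (h2 : (3 : ℤ) ∣ y - b) : (9 : ℤ) ∣ b + 2 * y := by
  have h3 : ¬ (3 : ℤ) ∣ b - 2 * y := by
    intro h4
    apply h1
    omega
  have hc : IsCoprime (3 : ℤ) (b - 2 * y) := (Prime.coprime_iff_not_dvd Int.prime_three).2 h3
  have hc' : IsCoprime ((3 : ℤ) ^ 2) (b - 2 * y) := hc.pow_left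
  have h5 : ((3 : ℤ) ^ 2) ∣ (b - 2 * y) * (b + 2 * y) := ⟨m - 2 * y ^ 2, by linear_combination -h⟩
  have := hc'.dvd_of_dvd_mul_left h5
  norm_num at this
  exact this

section

variable {P : Finset ℕ} (hP : Gd P)

include hP

/-- the class argument -/
lemma core (hp : S_SOLP) {q q' : ℤ × ℤ} (hq : q ∈ Sol3 P) (hq' : q' ∈ Sol3 P) {a : ℕ}
    (ha : a ∈ inr P) (h1 : (a : ℤ) ∣ q.1 * q'.2 + q'.1 * q.2)
    (h2 : ∀ p ∈ P, p ≠ a → (p : ℤ) ∣ q.1 * q'.2 - q'.1 * q.2) : False := by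
  classical
  have haP := inr_sub P ha
  obtain ⟨b, y⟩ := q
  obtain ⟨c, z⟩ := q'
  simp only at h1 h2
  have e1 : 9 * (pr P : ℤ) = b ^ 2 + 14 * y ^ 2 := hq.1
  have e2 : 9 * (pr P : ℤ) = c ^ 2 + 14 * z ^ 2 := hq'.1
  have hm : (pr P : ℤ) = a * (pr (P.erase a) : ℤ) := by
    have h0 : pr P = a * pr (P.erase a) := (Finset.mul_prod_erase P _ haP).symm
    rw [h0]
    push_cast
    rfl
  set M : ℤ := (pr (P.erase a) : ℤ) with hM
  have hMpos : 0 < M := by
    rw [hM]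
    have : 0 < pr (P.erase a) :=
      Finset.prod_pos fun p hp' => (ok_prime (hP.1 p (Finset.mem_of_mem_erase hp'))).pos
    exact_mod_cast this
  have hY : M ∣ b * z - c * y := by
    refine pr_dvd (fun p hp' => ok_prime (hP.1 p (Finset.mem_of_mem_erase hp'))) fun p hp' => ?_
    rw [Finset.mem_erase] at hp'
    exact h2 p hp'.2 hp'.1
  have hX : M ∣ b * c + 14 * y * z := by
    refine pr_dvd (fun p hp' => ok_prime (hP.1 p (Finset.mem_of_mem_erase hp'))) fun p hp' => ?_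
    rw [Finset.mem_erase] at hp'
    have hpp := ok_pint (hP.1 p hp'.2)
    have h3 : (p : ℤ) ∣ y * (b * c + 14 * y * z) := by
      obtain ⟨k, hk⟩ := h2 p hp'.2 hp'.1
      obtain ⟨l, hl⟩ := dvd_pr hp'.2
      rw [hl] at e1
      exact ⟨9 * l * z - b * k, by linear_combination -z * e1 - b * hk⟩
    exact (hpp.dvd_or_dvd h3).resolve_left (ndvd2 hP hp hq hp'.2)
  obtain ⟨s, hs⟩ := nine e1 hq.2.2.1 hq.2.2.2
  obtain ⟨t, ht⟩ := nine e2 hq'.2.2.1 hq'.2.2.2
  have hb' : b = -2 * y + 9 * s := by linarith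
  have hc' : c = -2 * z + 9 * t := by linarith
  have hY9 : (9 : ℤ) ∣ b * z - c * y := ⟨s * z - t * y, by rw [hb', hc']; ring⟩
  have hX9 : (9 : ℤ) ∣ b * c + 14 * y * z :=
    ⟨2 * y * z - 2 * y * t - 2 * s * z + 9 * s * t, by rw [hb', hc']; ring⟩
  have hcop : IsCoprime (9 : ℤ) M := by
    have h3 : IsCoprime (3 : ℤ) M := by
      rw [hM, pr]
      push_cast
      refine IsCoprime.prod_right fun p hp' => ?_
      rw [Finset.mem_erase] at hp'
      refine IsCoprime.symm ((Prime.coprime_iff_not_dvd (ok_pint (hP.1 p hp'.2))).2 ?_)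
      exact ok_ndvd3 (hP.1 p hp'.2)
    have := h3.pow_left (m := 2)
    norm_num at this
    exact this
  obtain ⟨Y', hY'⟩ := hcop.mul_dvd hY9 hY
  obtain ⟨X', hX'⟩ := hcop.mul_dvd hX9 hX
  have hnorm : X' ^ 2 + 14 * Y' ^ 2 = (a : ℤ) ^ 2 := by
    have h3 : (b * c + 14 * y * z) ^ 2 + 14 * (b * z - c * y) ^ 2 = (9 * (a * M)) ^ 2 := by
      rw [hm] at e1 e2
      have : (9 * ((a : ℤ) * M)) ^ 2 = (9 * (a * M)) * (9 * (a * M)) := by ring
      rw [this]
      nth_rewrite 1 [e1]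
      rw [e2]
      ring
    rw [hX', hY'] at h3
    have h4 : (9 * M) ^ 2 * (X' ^ 2 + 14 * Y' ^ 2) = (9 * M) ^ 2 * (a : ℤ) ^ 2 := by
      linear_combination h3
    exact mul_left_cancel₀ (by positivity) h4
  have hY0 : Y' ≠ 0 := by
    intro h0
    rw [h0, mul_zero] at hY'
    refine notboth hP hp hq hq' haP ?_ h1
    show (a : ℤ) ∣ b * z - c * y
    rw [hY']
    exact dvd_zero _
  have hN := nr_of hP ha
  exact norm_sq hN.1 (by have := hN.2.1; omega) hN.2.2 hnorm hY0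

/-- the exponent of the change of the sign at `7` by the flip at the inert primes -/
noncomputable def eE (P E : Finset ℕ) : ℕ := if E = ∅ then 0 else nx (spl P) + 1

/-- the flip at the two inert primes -/
lemma flip12 (h2 : (inr P).card = 2) (hb1 : S_SOLB1) (hb2 : S_SOLB2) (hp : S_SOLP) (ht : S_SOLT)
    {q : ℤ × ℤ} (hq : q ∈ Sol3 P) : ∃ q' ∈ Sol3 P,
    (∀ p ∈ inr P, (p : ℤ) ∣ q.1 * q'.2 + q'.1 * q.2) ∧
    (∀ p ∈ P, p ∉ inr P → (p : ℤ) ∣ q.1 * q'.2 - q'.1 * q.2) ∧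
    (∀ r ∈ spl P, jacobiSym q'.2 r = jacobiSym q.2 r * jacobiSym ((pr (inr P) : ℕ) : ℤ) r) ∧
    jacobiSym q'.1 7 = jacobiSym q.1 7 * (-1) ^ (nx (spl P) + 1) := by
  classical
  obtain ⟨a, a', haa, hin⟩ := Finset.card_eq_two.1 h2
  have ha : a ∈ inr P := by rw [hin]; simp
  have ha' : a' ∈ inr P := by rw [hin]; simp
  obtain ⟨q', hq', k1, k2, k3, k4⟩ := hb2 P hP a ha a' ha' haa q hq
  have hpr : pr (inr P) = a * a' := by
    rw [hin, pr, Finset.prod_pair haa]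
  have hdiff : ∀ p ∈ inr P, (p : ℤ) ∣ q.1 * q'.2 + q'.1 * q.2 := by
    intro p hp'
    rw [hin, Finset.mem_insert, Finset.mem_singleton] at hp'
    rcases hp' with rfl | rfl
    · exact k1
    · exact k2
  have hsame : ∀ p ∈ P, p ∉ inr P → (p : ℤ) ∣ q.1 * q'.2 - q'.1 * q.2 := by
    intro p hpP hpn
    exact k3 p hpP (fun h => hpn (h ▸ ha)) (fun h => hpn (h ▸ ha'))
  refine ⟨q', hq', hdiff, hsame, ?_, ?_⟩
  · intro r hr
    rw [k4 r hr, hpr]
    ring
  · obtain ⟨q'', hq'', l1, l2, l3, l4⟩ := flips hP hb1 hp hq' (spl P) (Finset.Subset.refl _)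
    have hne : P.Nonempty := ⟨a, inr_sub P ha⟩
    have htot := ht P hP hne q hq q'' hq'' (by
      intro p hpP
      rcases mem_cases hP hpP with h | h
      · exact comp_diff hP hp hq' hpP (hsame p hpP (fun h' => spl_inr h h')) (l1 p h)
      · exact comp_diff' hP hp hq' hpP (hdiff p h) (l2 p hpP (fun h' => spl_inr h' h)))
    rw [htot] at l4
    have h5 : ((-1 : ℤ) ^ nx (spl P)) * ((-1 : ℤ) ^ nx (spl P)) = 1 := by
      rw [← mul_pow]
      norm_num
    rw [pow_succ]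
    linear_combination (-(-1 : ℤ) ^ nx (spl P)) * l4 - (jacobiSym q'.1 7) * h5

lemma flipsE (h2 : (inr P).card = 2) (hb1 : S_SOLB1) (hb2 : S_SOLB2) (hp : S_SOLP) (ht : S_SOLT)
    {q : ℤ × ℤ} (hq : q ∈ Sol3 P) (J E : Finset ℕ) (hJ : J ⊆ spl P) (hE : E = ∅ ∨ E = inr P) :
    ∃ q' ∈ Sol3 P, (∀ p ∈ J ∪ E, (p : ℤ) ∣ q.1 * q'.2 + q'.1 * q.2) ∧
    (∀ p ∈ P, p ∉ J ∪ E → (p : ℤ) ∣ q.1 * q'.2 - q'.1 * q.2) ∧
    (∀ r ∈ spl P, jacobiSym q'.2 r =
      jacobiSym q.2 r * (sg' P J r * jacobiSym ((pr E : ℕ) : ℤ) r)) ∧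
    jacobiSym q'.1 7 = jacobiSym q.1 7 * (-1) ^ (nx J + eE P E) := by
  classical
  rcases hE with rfl | hE
  · obtain ⟨q', hq', k1, k2, k3, k4⟩ := flips hP hb1 hp hq J hJ
    refine ⟨q', hq', ?_, ?_, ?_, ?_⟩
    · intro p hp'
      rw [Finset.union_empty] at hp'
      exact k1 p hp'
    · intro p hpP hp'
      rw [Finset.union_empty] at hp'
      exact k2 p hpP hp'
    · intro r hr
      rw [k3 r hr]
      simp [pr, jacobiSym.one_left]
    · rw [k4, eE, if_pos rfl, add_zero]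
  · have hEne : E ≠ ∅ := by
      intro h
      rw [hE] at h
      rw [h] at h2
      simp at h2
    obtain ⟨q1, hq1, k1, k2, k3, k4⟩ := flip12 hP h2 hb1 hb2 hp ht hq
    obtain ⟨q', hq', l1, l2, l3, l4⟩ := flips hP hb1 hp hq1 J hJ
    refine ⟨q', hq', ?_, ?_, ?_, ?_⟩
    · intro p hp'
      rcases Finset.mem_union.1 hp' with h | h
      · have hpS := hJ h
        have hpP := spl_sub P hpS
        exact comp_diff hP hp hq1 hpP (k2 p hpP (fun h' => spl_inr hpS h')) (l1 p h)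
      · rw [hE] at h
        have hpP := inr_sub P h
        exact comp_diff' hP hp hq1 hpP (k1 p h) (l2 p hpP (fun h' => spl_inr (hJ h') h))
    · intro p hpP hp'
      rw [Finset.mem_union, not_or, hE] at hp'
      exact comp_zero hP hp hq1 hpP (k2 p hpP hp'.2) (l2 p hpP hp'.1)
    · intro r hr
      rw [l3 r hr, k3 r hr, hE]
      ring
    · rw [l4, k4, eE, if_neg hEne]
      ring

/-- the relation between two representations -/
lemma relE (h2 : (inr P).card = 2) (hb1 : S_SOLB1) (hb2 : S_SOLB2) (hc : S_SOLC) (hp : S_SOLP)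
    (ht : S_SOLT) {q q' : ℤ × ℤ} (hq : q ∈ Sol3 P) (hq' : q' ∈ Sol3 P) :
    ∃ J E : Finset ℕ, J ⊆ spl P ∧ (E = ∅ ∨ E = inr P) ∧
    (∀ p ∈ P, p ∉ J ∪ E → (p : ℤ) ∣ q.1 * q'.2 - q'.1 * q.2) ∧
    (∀ r ∈ spl P, jacobiSym q'.2 r =
      jacobiSym q.2 r * (sg' P J r * jacobiSym ((pr E : ℕ) : ℤ) r)) ∧
    jacobiSym q'.1 7 = jacobiSym q.1 7 * (-1) ^ (nx J + eE P E) := by
  classical
  set J := (Jd P q q').filter fun p => p ∈ spl P with hJd
  set E := (Jd P q q').filter fun p => p ∈ inr P with hEd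
  have hJ : J ⊆ spl P := fun p hp' => (Finset.mem_filter.1 hp').2
  have hEs : E ⊆ inr P := fun p hp' => (Finset.mem_filter.1 hp').2
  have hJE : ∀ p ∈ P, p ∉ J ∪ E → (p : ℤ) ∣ q.1 * q'.2 - q'.1 * q.2 := by
    intro p hpP hn
    by_contra hd
    have h3 : p ∈ Jd P q q' := mem_Jd.2 ⟨hpP, hd⟩
    rw [Finset.mem_union, not_or] at hn
    rcases mem_cases hP hpP with h | h
    · exact hn.1 (Finset.mem_filter.2 ⟨h3, h⟩)
    · exact hn.2 (Finset.mem_filter.2 ⟨h3, h⟩)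
  have hJE' : ∀ p ∈ J ∪ E, (p : ℤ) ∣ q.1 * q'.2 + q'.1 * q.2 := by
    intro p hpu
    have h3 : p ∈ Jd P q q' := by
      rcases Finset.mem_union.1 hpu with h | h
      · exact (Finset.mem_filter.1 h).1
      · exact (Finset.mem_filter.1 h).1
    have h4 := mem_Jd.1 h3
    exact (key hP hq hq' h4.1).resolve_left h4.2
  have hE : E = ∅ ∨ E = inr P := by
    have hcard : E.card ≤ 2 := h2 ▸ Finset.card_le_card hEs
    have hcases : E.card = 0 ∨ E.card = 1 ∨ E.card = 2 := by omega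
    rcases hcases with h | h | h
    · exact Or.inl (Finset.card_eq_zero.1 h)
    · exfalso
      obtain ⟨a, ha⟩ := Finset.card_eq_one.1 h
      have haE : a ∈ E := by rw [ha]; exact Finset.mem_singleton_self a
      have hai : a ∈ inr P := hEs haE
      obtain ⟨q'', hq'', k1, k2, k3, k4⟩ := flips hP hb1 hp hq' J hJ
      refine core hP hp hq hq'' hai ?_ ?_
      · exact comp_diff' hP hp hq' (inr_sub P hai) (hJE' a (Finset.mem_union_right _ haE))
          (k2 a (inr_sub P hai) (fun h' => spl_inr (hJ h') hai))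
      · intro p hpP hpa
        by_cases hpJ : p ∈ J
        · exact comp_zero' hP hp hq' hpP (hJE' p (Finset.mem_union_left _ hpJ)) (k1 p hpJ)
        · refine comp_zero hP hp hq' hpP (hJE p hpP ?_) (k2 p hpP hpJ)
          rw [Finset.mem_union, not_or, ha, Finset.mem_singleton]
          exact ⟨hpJ, hpa⟩
    · right
      exact Finset.eq_of_subset_of_card_le hEs (by rw [h, h2])
  obtain ⟨q'', hq'', k1, k2, k3, k4⟩ := flipsE hP h2 hb1 hb2 hp ht hq J E hJ hE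
  have he : q' = q'' := by
    refine uniq hP hc hp hq hq' hq'' fun p hpP => ?_
    by_cases hd : p ∈ J ∪ E
    · right
      exact ⟨hJE' p hd, k1 p hd⟩
    · left
      exact ⟨hJE p hpP hd, k2 p hpP hd⟩
  subst he
  exact ⟨J, E, hJ, hE, hJE, k3, k4⟩

end

end Pool.Agent.Y657.Z
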