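import Mathlib
import Pool.Agent.Z700.Defs3
import Pool.Agent.Y931.Z700.Exi
import Pool.Agent.Y657.Z.Fix4

/-!
Z701-FIX, part 5: two inert primes, the linear algebra.
-/

set_option autoImplicit false
set_option linter.unusedSectionVars false

namespace Pool.Agent.Y657.Z

open Finset Matrix
open Pool.Agent.Z700 (pr X2 Yd lres Sol3)
open Pool.Agent.Z701
open Pool.Agent.Y931.Z700 (EqAt odd_iff)

/-- odd determinants in terms of subsets -/
lemma odd_sub (l : ℕ → ℕ → ℤ) (x : ℕ → ℤ) (S : Finset ℕ) :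
    Odd (Yd l x S) ↔ ∀ I ⊆ S, (∀ i ∈ I, Even ((∑ k ∈ S \ I, l i k) + x i)) →
      (∀ i ∈ S \ I, Even (∑ k ∈ I, l i k)) → I = ∅ := by
  classical
  have cast0 : ∀ n : ℤ, (n : ZMod 2) = 0 ↔ Even n := by
    intro n
    rw [ZMod.intCast_zmod_eq_zero_iff_dvd, even_iff_two_dvd]
    norm_num
  have hin : ∀ (I : Finset ℕ) (v : ℕ → ZMod 2), I ⊆ S →
      (∀ k ∈ S, v k = if k ∈ I then 1 else 0) → ∀ i ∈ I,
      (EqAt l x S v i ↔ Even ((∑ k ∈ S \ I, l i k) + x i)) := by
    intro I v hI hv i hi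
    rw [← cast0, EqAt, hv i (hI hi), if_pos hi, mul_one]
    have : ∑ k ∈ S.erase i, (l i k : ZMod 2) * (1 - v k) = ∑ k ∈ S \ I, (l i k : ZMod 2) := by
      have h1 : S \ I ⊆ S.erase i := by
        intro k hk
        rw [Finset.mem_sdiff] at hk
        rw [Finset.mem_erase]
        exact ⟨fun h => hk.2 (h ▸ hi), hk.1⟩
      rw [← Finset.sum_subset h1]
      · refine Finset.sum_congr rfl fun k hk => ?_
        rw [Finset.mem_sdiff] at hk
        rw [hv k hk.1, if_neg hk.2]
        ring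
      · intro k hk hk'
        have hkS := Finset.mem_of_mem_erase hk
        have hkI : k ∈ I := by
          by_contra h
          exact hk' (Finset.mem_sdiff.2 ⟨hkS, h⟩)
        rw [hv k hkS, if_pos hkI]
        ring
    rw [this]
    push_cast
    rfl
  have hout : ∀ (I : Finset ℕ) (v : ℕ → ZMod 2), I ⊆ S →
      (∀ k ∈ S, v k = if k ∈ I then 1 else 0) → ∀ i ∈ S \ I,
      (EqAt l x S v i ↔ Even (∑ k ∈ I, l i k)) := by
    intro I v hI hv i hi
    rw [Finset.mem_sdiff] at hi
    rw [← cast0, EqAt, hv i hi.1, if_neg hi.2, mul_zero, add_zero]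
    have : ∑ k ∈ S.erase i, (l i k : ZMod 2) * (0 - v k) = -∑ k ∈ I, (l i k : ZMod 2) := by
      have h1 : I ⊆ S.erase i := by
        intro k hk
        rw [Finset.mem_erase]
        exact ⟨fun h => hi.2 (h ▸ hk), hI hk⟩
      rw [← Finset.sum_subset h1, ← Finset.sum_neg_distrib]
      · refine Finset.sum_congr rfl fun k hk => ?_
        rw [hv k (hI hk), if_pos hk]
        ring
      · intro k hk hk'
        rw [hv k (Finset.mem_of_mem_erase hk), if_neg hk']
        ring
    rw [this, neg_eq_zero]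
    push_cast
    rfl
  rw [odd_iff]
  constructor
  · intro h I hI h1 h2
    by_contra hne
    obtain ⟨i, hi⟩ := Finset.nonempty_iff_ne_empty.2 hne
    have hv : ∀ k ∈ S, (fun k => if k ∈ I then (1 : ZMod 2) else 0) k = if k ∈ I then 1 else 0 :=
      fun k _ => rfl
    have h3 := h (fun k => if k ∈ I then (1 : ZMod 2) else 0) (by
      intro k hk
      by_cases hkI : k ∈ I
      · exact (hin I _ hI hv k hkI).2 (h1 k hkI)
      · exact (hout I _ hI hv k (Finset.mem_sdiff.2 ⟨hk, hkI⟩)).2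
          (h2 k (Finset.mem_sdiff.2 ⟨hk, hkI⟩))) i (hI hi)
    simp only [if_pos hi] at h3
    exact one_ne_zero h3
  · intro h v hv
    have hdich : ∀ z : ZMod 2, z = 0 ∨ z = 1 := by decide
    set I := S.filter fun k => v k = 1 with hI
    have hIS : I ⊆ S := Finset.filter_subset _ _
    have hvI : ∀ k ∈ S, v k = if k ∈ I then 1 else 0 := by
      intro k hk
      split_ifs with hkI
      · exact (Finset.mem_filter.1 hkI).2
      · rcases hdich (v k) with h0 | h0
        · exact h0
        · exact absurd (Finset.mem_filter.2 ⟨hk, h0⟩) hkI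
    have h0 := h I hIS (fun i hi => (hin I v hIS hvI i hi).1 (hv i (hIS hi)))
      (fun i hi => (hout I v hIS hvI i hi).1 (hv i (Finset.mem_sdiff.1 hi).1))
    intro i hi
    rw [hvI i hi, h0]
    simp

/-- the symbol of a product and the number of edges -/
lemma jac_even {r : ℕ} (hr : Sp r ∨ Nr r) (K : Finset ℕ) (hK : ∀ q ∈ K, Sp q ∨ Nr q)
    (h : r ∉ K) : (jacobiSym ((pr K : ℕ) : ℤ) r = 1 ∧ Even (∑ q ∈ K, lres r q)) ∨
      (jacobiSym ((pr K : ℕ) : ℤ) r = -1 ∧ ¬ Even (∑ q ∈ K, lres r q)) := by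
  classical
  induction K using Finset.induction_on with
  | empty =>
    left
    simp [pr]
  | insert q K hq ih =>
    have h1 := ih (fun s hs => hK s (Finset.mem_insert_of_mem hs))
      (fun h0 => h (Finset.mem_insert_of_mem h0))
    have hqq := hK q (Finset.mem_insert_self q K)
    have hrq : r ≠ q := by
      rintro rfl
      exact h (Finset.mem_insert_self _ _)
    have e1 : jacobiSym ((pr (insert q K) : ℕ) : ℤ) r =
        jacobiSym (q : ℤ) r * jacobiSym ((pr K : ℕ) : ℤ) r := by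
      have : pr (insert q K) = q * pr K := by
        unfold pr
        rw [Finset.prod_insert hq]
      rw [this]
      push_cast
      exact jacobiSym.mul_left _ _ _
    have e2 : jacobiSym (r : ℤ) q = jacobiSym (q : ℤ) r := jac_recip hr hqq
    have e3 : jacobiSym (q : ℤ) r = 1 ∨ jacobiSym (q : ℤ) r = -1 := by
      refine jacobiSym.eq_one_or_neg_one ?_
      rw [Int.gcd_natCast_natCast]
      exact (Nat.coprime_primes (ok_prime hqq) (ok_prime hr)).2 hrq.symm
    rw [e1, Finset.sum_insert hq]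
    rcases e3 with e3 | e3
    · have e4 : lres r q = 0 := by
        unfold lres
        rw [e2, e3]
        simp
      rw [e3, e4, zero_add, one_mul]
      exact h1
    · have e4 : lres r q = 1 := by
        unfold lres
        rw [e2, e3]
        simp
      rw [e3, e4]
      rcases h1 with ⟨h2, h3⟩ | ⟨h2, h3⟩
      · right
        rw [h2]
        refine ⟨by norm_num, ?_⟩
        rw [Int.even_add]
        intro h4
        exact absurd (h4.2 h3) (by decide)
      · left
        rw [h2]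
        refine ⟨by norm_num, ?_⟩
        rw [Int.even_add]
        constructor
        · intro h4
          exact absurd h4 (by decide)
        · intro h4
          exact absurd h4 h3

lemma jac_one_iff {r : ℕ} (hr : Sp r ∨ Nr r) (K : Finset ℕ) (hK : ∀ q ∈ K, Sp q ∨ Nr q)
    (h : r ∉ K) : jacobiSym ((pr K : ℕ) : ℤ) r = 1 ↔ Even (∑ q ∈ K, lres r q) := by
  rcases jac_even hr K hK h with ⟨h1, h2⟩ | ⟨h1, h2⟩
  · exact ⟨fun _ => h2, fun _ => h1⟩
  · constructor
    · intro h3
      rw [h1] at h3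
      norm_num at h3
    · intro h3
      exact absurd h3 h2

section

variable {P : Finset ℕ} (hP : Gd P)

include hP

/-- the kernel of Laplacian plus diagonal -/
def LKer (P I : Finset ℕ) : Prop := (∀ r ∈ I, jacobiSym ((pr (P \ I) : ℕ) : ℤ) r = 1) ∧
  ∀ r ∈ spl P \ I, jacobiSym ((pr I : ℕ) : ℤ) r = 1

lemma lin_iff : Odd (Yd lres (ind (inr P)) (spl P)) ↔ ∀ I ⊆ spl P, LKer P I → I = ∅ := by
  classical
  rw [odd_sub]
  have key1 : ∀ I ⊆ spl P, ∀ r ∈ I, (jacobiSym ((pr (P \ I) : ℕ) : ℤ) r = 1 ↔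
      Even ((∑ k ∈ spl P \ I, lres r k) + ind (inr P) r)) := by
    intro I hI r hr
    have hrP := spl_sub P (hI hr)
    rw [jac_one_iff (hP.1 r hrP) (P \ I) (fun q hq => hP.1 q (Finset.mem_sdiff.1 hq).1)
      (fun h => (Finset.mem_sdiff.1 h).2 hr)]
    have h1 : P \ I = (spl P \ I) ∪ inr P := by
      ext k
      rw [Finset.mem_sdiff, Finset.mem_union, Finset.mem_sdiff]
      constructor
      · rintro ⟨h1, h2⟩
        rcases mem_cases hP h1 with h | h
        · exact Or.inl ⟨h, h2⟩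
        · exact Or.inr h
      · rintro (⟨h1, h2⟩ | h)
        · exact ⟨spl_sub P h1, h2⟩
        · exact ⟨inr_sub P h, fun h' => spl_inr (hI h') h⟩
    have h2 : Disjoint (spl P \ I) (inr P) :=
      Finset.disjoint_of_subset_left Finset.sdiff_subset disj_si
    rw [h1, Finset.sum_union h2, ind]
  have key2 : ∀ I ⊆ spl P, ∀ r ∈ spl P \ I, (jacobiSym ((pr I : ℕ) : ℤ) r = 1 ↔
      Even (∑ k ∈ I, lres r k)) := by
    intro I hI r hr
    rw [Finset.mem_sdiff] at hr
    exact jac_one_iff (hP.1 r (spl_sub P hr.1)) I (fun q hq => hP.1 q (spl_sub P (hI hq))) hr.2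
  constructor
  · intro h I hI hk
    exact h I hI (fun r hr => (key1 I hI r hr).1 (hk.1 r hr))
      (fun r hr => (key2 I hI r hr).1 (hk.2 r hr))
  · intro h I hI h1 h2
    exact h I hI ⟨fun r hr => (key1 I hI r hr).2 (h1 r hr),
      fun r hr => (key2 I hI r hr).2 (h2 r hr)⟩

/-- the kernel of the signature map -/
def KerE (P J E : Finset ℕ) : Prop :=
  (∀ r ∈ spl P, sg' P J r * jacobiSym ((pr E : ℕ) : ℤ) r = 1) ∧ Even (nx J + eE P E)

omit hP in
lemma nx_compl {J : Finset ℕ} (hJ : J ⊆ spl P) : nx J + nx (spl P \ J) = nx (spl P) := by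
  classical
  rw [nx, nx, nx, ← Finset.card_union_of_disjoint, ← Finset.filter_union,
    Finset.union_sdiff_of_subset hJ]
  rw [Finset.disjoint_left]
  intro x hx hx'
  exact (Finset.mem_sdiff.1 (Finset.mem_filter.1 hx').1).2 (Finset.mem_filter.1 hx).1

lemma kerE_empty {J : Finset ℕ} (hJ : J ⊆ spl P) :
    KerE P J ∅ ↔ LKer P J ∧ Even (nx J) := by
  classical
  have e0 : ∀ r : ℕ, jacobiSym ((pr (∅ : Finset ℕ) : ℕ) : ℤ) r = 1 := by
    intro r
    simp [pr, jacobiSym.one_left]
  have e1 : eE P ∅ = 0 := by rw [eE, if_pos rfl]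
  rw [KerE, LKer, e1, add_zero]
  constructor
  · rintro ⟨h1, h2⟩
    refine ⟨⟨fun r hr => ?_, fun r hr => ?_⟩, h2⟩
    · have := h1 r (hJ hr)
      rwa [e0, mul_one, sg', if_pos hr] at this
    · rw [Finset.mem_sdiff] at hr
      have := h1 r hr.1
      rwa [e0, mul_one, sg', if_neg hr.2] at this
  · rintro ⟨⟨h1, h2⟩, h3⟩
    refine ⟨fun r hr => ?_, h3⟩
    rw [e0, mul_one, sg']
    split_ifs with h
    · exact h1 r h
    · exact h2 r (Finset.mem_sdiff.2 ⟨hr, h⟩)

lemma kerE_inr (h2 : (inr P).card = 2) {J : Finset ℕ} (hJ : J ⊆ spl P) :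
    KerE P J (inr P) ↔ LKer P (spl P \ J) ∧ Odd (nx (spl P \ J)) := by
  classical
  have hne : inr P ≠ ∅ := by
    intro h
    rw [h] at h2
    simp at h2
  have e1 : eE P (inr P) = nx (spl P) + 1 := by rw [eE, if_neg hne]
  have hpar : Even (nx J + eE P (inr P)) ↔ Odd (nx (spl P \ J)) := by
    rw [e1, ← nx_compl hJ]
    have : nx J + (nx J + nx (spl P \ J) + 1) = 2 * nx J + (nx (spl P \ J) + 1) := by ring
    rw [this, Nat.even_add]
    simp only [even_two, Even.mul_right, true_iff]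
    rw [Nat.even_add_one, Nat.not_even_iff_odd]
  have hsq : ∀ r ∈ spl P, jacobiSym ((pr (inr P) : ℕ) : ℤ) r *
      jacobiSym ((pr (inr P) : ℕ) : ℤ) r = 1 := by
    intro r hr
    rw [jac_pr, ← Finset.prod_mul_distrib]
    refine Finset.prod_eq_one fun s hs => ?_
    exact jac_sq (hP.1 s (inr_sub P hs)) (hP.1 r (spl_sub P hr)) (fun h => spl_inr hr (h ▸ hs))
  have hA : ∀ r : ℕ, jacobiSym ((pr (P \ J) : ℕ) : ℤ) r =
      jacobiSym ((pr (spl P \ J) : ℕ) : ℤ) r * jacobiSym ((pr (inr P) : ℕ) : ℤ) r := by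
    intro r
    have h1 : P \ J = (spl P \ J) ∪ inr P := by
      ext k
      rw [Finset.mem_sdiff, Finset.mem_union, Finset.mem_sdiff]
      constructor
      · rintro ⟨h1, h2⟩
        rcases mem_cases hP h1 with h | h
        · exact Or.inl ⟨h, h2⟩
        · exact Or.inr h
      · rintro (⟨h1, h2⟩ | h)
        · exact ⟨spl_sub P h1, h2⟩
        · exact ⟨inr_sub P h, fun h' => spl_inr (hJ h') h⟩
    have h2 : Disjoint (spl P \ J) (inr P) :=
      Finset.disjoint_of_subset_left Finset.sdiff_subset disj_si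
    have h3 : pr (P \ J) = pr (spl P \ J) * pr (inr P) := by
      rw [h1, pr, pr, pr, Finset.prod_union h2]
    rw [h3, Nat.cast_mul, jacobiSym.mul_left]
  have hB : ∀ r : ℕ, jacobiSym ((pr (P \ (spl P \ J)) : ℕ) : ℤ) r =
      jacobiSym ((pr J : ℕ) : ℤ) r * jacobiSym ((pr (inr P) : ℕ) : ℤ) r := by
    intro r
    have h1 : P \ (spl P \ J) = J ∪ inr P := by
      ext k
      rw [Finset.mem_sdiff, Finset.mem_union, Finset.mem_sdiff]
      constructor
      · rintro ⟨h1, h2⟩
        rcases mem_cases hP h1 with h | h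
        · left
          by_contra hk
          exact h2 ⟨h, hk⟩
        · exact Or.inr h
      · rintro (h | h)
        · exact ⟨spl_sub P (hJ h), fun h' => h'.2 h⟩
        · exact ⟨inr_sub P h, fun h' => spl_inr h'.1 h⟩
    have h2 : Disjoint J (inr P) := Finset.disjoint_of_subset_left hJ disj_si
    have h3 : pr (P \ (spl P \ J)) = pr J * pr (inr P) := by
      rw [h1, pr, pr, pr, Finset.prod_union h2]
    rw [h3, Nat.cast_mul, jacobiSym.mul_left]
  rw [KerE, LKer, hpar]
  refine and_congr_left fun _ => ?_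
  constructor
  · intro h1
    constructor
    · intro r hr
      rw [Finset.mem_sdiff] at hr
      have := h1 r hr.1
      rw [sg', if_neg hr.2] at this
      rw [hB]
      exact this
    · intro r hr
      have hrS := (Finset.mem_sdiff.1 hr).1
      have hrJ : r ∈ J := by
        by_contra h
        exact (Finset.mem_sdiff.1 hr).2 (Finset.mem_sdiff.2 ⟨hrS, h⟩)
      have := h1 r hrS
      rw [sg', if_pos hrJ, hA, mul_assoc, hsq r hrS, mul_one] at this
      exact this
  · rintro ⟨h1, h3⟩ r hr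
    rw [sg']
    split_ifs with h
    · rw [hA, mul_assoc, hsq r hr, mul_one]
      refine h3 r (Finset.mem_sdiff.2 ⟨hr, fun h' => (Finset.mem_sdiff.1 h').2 h⟩)
    · have := h1 r (Finset.mem_sdiff.2 ⟨hr, h⟩)
      rw [hB] at this
      exact this

/-- the signature map is injective if the determinant is odd -/
lemma ker_triv (h2 : (inr P).card = 2) (hY : Odd (Yd lres (ind (inr P)) (spl P)))
    {J E : Finset ℕ} (hJ : J ⊆ spl P) (hE : E = ∅ ∨ E = inr P) (hK : KerE P J E) :
    J = ∅ ∧ E = ∅ := by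
  classical
  have hl := (lin_iff hP).1 hY
  rcases hE with rfl | rfl
  · exact ⟨hl J hJ ((kerE_empty hP hJ).1 hK).1, rfl⟩
  · exfalso
    obtain ⟨h3, h4⟩ := (kerE_inr hP h2 hJ).1 hK
    have h5 := hl _ Finset.sdiff_subset h3
    rw [h5] at h4
    simp [nx] at h4

lemma ker_ex (h2 : (inr P).card = 2) (hY : ¬ Odd (Yd lres (ind (inr P)) (spl P))) :
    ∃ J E : Finset ℕ, J ⊆ spl P ∧ (E = ∅ ∨ E = inr P) ∧ KerE P J E ∧ (J ∪ E).Nonempty := by
  classical
  rw [lin_iff hP] at hY
  push Not at hY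
  obtain ⟨I, hI, hL, hne⟩ := hY
  by_cases he : Even (nx I)
  · refine ⟨I, ∅, hI, Or.inl rfl, (kerE_empty hP hI).2 ⟨hL, he⟩, ?_⟩
    rw [Finset.union_empty]
    exact Finset.nonempty_iff_ne_empty.2 (by simpa [Finset.nonempty_iff_ne_empty] using hne)
  · refine ⟨spl P \ I, inr P, Finset.sdiff_subset, Or.inr rfl, ?_, ?_⟩
    · rw [kerE_inr hP h2 Finset.sdiff_subset, Finset.sdiff_sdiff_eq_self hI]
      exact ⟨hL, Nat.not_even_iff_odd.1 he⟩
    · have : (inr P).Nonempty := by
        rw [← Finset.card_pos, h2]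
        norm_num
      exact this.mono Finset.subset_union_right

end

end Pool.Agent.Y657.Z
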