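import Mathlib
import Pool.Agent.Z700.Defs3
import Pool.Agent.Y657.Z.Fix3
import Pool.Agent.Y657.Z.Fix5

/-!
Z701-FIX, part 6: two inert primes, the parity of the number of the remaining representations.
-/

set_option autoImplicit false
set_option linter.unusedSectionVars false

namespace Pool.Agent.Y657.Z

open Finset Matrix
open Pool.Agent.Z700 (pr X2 Yd lres Sol3)
open Pool.Agent.Z701

section

variable {P : Finset ℕ} (hP : Gd P) (h2 : (inr P).card = 2)

include hP h2

lemma sig_inj2 (hb1 : S_SOLB1) (hb2 : S_SOLB2) (hc : S_SOLC) (hp : S_SOLP) (ht : S_SOLT)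
    (hY : Odd (Yd lres (ind (inr P)) (spl P)))
    {q q' : ℤ × ℤ} (hq : q ∈ Sol3 P) (hq' : q' ∈ Sol3 P)
    (h1 : ∀ r ∈ spl P, jacobiSym q.2 r = jacobiSym q'.2 r)
    (h7 : jacobiSym q.1 7 = jacobiSym q'.1 7) : q = q' := by
  classical
  obtain ⟨J, E, hJ, hE, hsame, k1, k2⟩ := relE hP h2 hb1 hb2 hc hp ht hq hq'
  have hK : KerE P J E := by
    constructor
    · intro r hr
      exact sg_one_of_eq hP hp hq (spl_sub P hr) (by rw [← k1 r hr, h1 r hr])
    · by_contra hodd
      rw [Nat.not_even_iff_odd] at hodd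
      rw [hodd.neg_one_pow, ← h7] at k2
      obtain ⟨ε, _, hε⟩ := eps hP
      rcases (hε q hq).1 with h | h <;> rw [h] at k2 <;> norm_num at k2
  obtain ⟨hJ0, hE0⟩ := ker_triv hP h2 hY hJ hE hK
  refine hc P hP q hq q' hq' fun p hpP => hsame p hpP ?_
  rw [hJ0, hE0]
  simp

lemma card_one2 (hb1 : S_SOLB1) (hb2 : S_SOLB2) (hc : S_SOLC) (hp : S_SOLP) (ht : S_SOLT)
    (hY : Odd (Yd lres (ind (inr P)) (spl P))) (hSol : (Sol3 P).Nonempty) :
    (FS P).card = 1 := by
  classical
  obtain ⟨q0, hq0⟩ := hSol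
  obtain ⟨ε, hε1, hε⟩ := eps hP
  obtain ⟨a, ha⟩ : (inr P).Nonempty := by
    rw [← Finset.card_pos, h2]
    norm_num
  have haS : a ∉ spl P := fun h => spl_inr h ha
  set T := insert a (spl P) with hT
  have haT : a ∈ T := Finset.mem_insert_self _ _
  set EE : Finset ℕ → Finset ℕ := fun A => if a ∈ A then inr P else ∅ with hEE
  have hEEor : ∀ A, EE A = ∅ ∨ EE A = inr P := by
    intro A
    simp only [hEE]
    split_ifs
    · exact Or.inr rfl
    · exact Or.inl rfl
  have hsubT : ∀ A ⊆ T, A.erase a ⊆ spl P := by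
    intro A hA p hp'
    rw [Finset.mem_erase] at hp'
    rcases Finset.mem_insert.1 (hA hp'.2) with h | h
    · exact absurd h hp'.1
    · exact h
  have hfl := fun (A : Finset ℕ) (hA : A ⊆ T) =>
    flipsE hP h2 hb1 hb2 hp ht hq0 (A.erase a) (EE A) (hsubT A hA) (hEEor A)
  choose! φ hφ using hfl
  have hmemK : ∀ A ⊆ T, ∀ p ∈ T, (p ∈ A.erase a ∪ EE A ↔ p ∈ A) := by
    intro A hA p hpT
    rw [Finset.mem_union, Finset.mem_erase]
    by_cases hpa : p = a
    · subst hpa
      simp only [hEE]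
      constructor
      · rintro (h | h)
        · exact h.2
        · by_contra hn
          rw [if_neg hn] at h
          exact absurd h (Finset.notMem_empty _)
      · intro h
        right
        rw [if_pos h]
        exact ha
    · have hpS : p ∈ spl P := by
        rcases Finset.mem_insert.1 hpT with h | h
        · exact absurd h hpa
        · exact h
      constructor
      · rintro (h | h)
        · exact h.2
        · exfalso
          rcases hEEor A with h' | h'
          · rw [h'] at h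
            exact absurd h (Finset.notMem_empty _)
          · rw [h'] at h
            exact spl_inr hpS h
      · intro h
        exact Or.inl ⟨hpa, h⟩
  have hTP : T ⊆ P := Finset.insert_subset (inr_sub P ha) (spl_sub P)
  have hφinj : ∀ A B, A ⊆ T → B ⊆ T → φ A = φ B → A ⊆ B := by
    intro A B hA hB he p hpA
    by_contra hpB
    have hpT := hA hpA
    have k1 := (hφ A hA).2.1 p ((hmemK A hA p hpT).2 hpA)
    have k2 := (hφ B hB).2.2.1 p (hTP hpT) (fun h => hpB ((hmemK B hB p hpT).1 h))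
    rw [← he] at k2
    exact notboth hP hp hq0 (hφ A hA).1 (hTP hpT) k2 k1
  have hcode : ∀ q ∈ Sol3 P, ∀ q' ∈ Sol3 P, code T a q = code T a q' → q = q' := by
    intro q hq q' hq' h
    refine sig_inj2 hP h2 hb1 hb2 hc hp ht hY hq hq' ?_ ?_
    · intro r hr
      have hrT : r ∈ T := Finset.mem_insert_of_mem hr
      have hra : r ≠ a := fun h' => haS (h' ▸ hr)
      have k1 := code_r (P := T) hrT hra q
      have k2 := code_r (P := T) hrT hra q'
      rw [h, k2] at k1
      rcases (hp P hP q hq).1 r (spl_sub P hr) with a1 | a1 <;>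
        rcases (hp P hP q' hq').1 r (spl_sub P hr) with b | b
      · rw [a1, b]
      · exact absurd (k1.1 b) (by rw [a1]; norm_num)
      · exact absurd (k1.2 a1) (by rw [b]; norm_num)
      · rw [a1, b]
    · have k1 := code_p0 (P := T) a q
      have k2 := code_p0 (P := T) a q'
      rw [h, k2] at k1
      rcases (hε q hq).1 with a1 | a1 <;> rcases (hε q' hq').1 with b | b
      · rw [a1, b]
      · exact absurd (k1.2 a1) (by rw [b]; norm_num)
      · exact absurd (k1.1 b) (by rw [a1]; norm_num)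
      · rw [a1, b]
  have hsurj : Set.SurjOn (fun A => code T a (φ A)) (T.powerset : Set (Finset ℕ))
      (T.powerset : Set (Finset ℕ)) := by
    refine Finset.surjOn_of_injOn_of_card_le _ ?_ ?_ le_rfl
    · intro A _
      exact Finset.mem_coe.2 (Finset.mem_powerset.2 (code_sub haT _))
    · intro A hA B hB he
      have hA1 := Finset.mem_powerset.1 (Finset.mem_coe.1 hA)
      have hB1 := Finset.mem_powerset.1 (Finset.mem_coe.1 hB)
      have := hcode _ (hφ A hA1).1 _ (hφ B hB1).1 he
      exact Finset.Subset.antisymm (hφinj A B hA1 hB1 this) (hφinj B A hB1 hA1 this.symm)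
  set A0 : Finset ℕ := if ε = 1 then {a} else ∅ with hA0
  have hAP : A0 ∈ (T.powerset : Set (Finset ℕ)) := by
    refine Finset.mem_coe.2 (Finset.mem_powerset.2 ?_)
    rw [hA0]
    split_ifs
    · exact Finset.singleton_subset_iff.2 haT
    · exact Finset.empty_subset _
  obtain ⟨A, hA, hAA⟩ := hsurj hAP
  have hAA' : code T a (φ A) = A0 := hAA
  have hA1 := Finset.mem_powerset.1 (Finset.mem_coe.1 hA)
  have hsol := (hφ A hA1).1
  have hC : Cc P (φ A) := by
    have h7 : jacobiSym (φ A).1 7 = ε := by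
      have k1 := code_p0 (P := T) a (φ A)
      rw [hAA'] at k1
      rcases hε1 with e | e
      · have : a ∈ A0 := by rw [hA0, if_pos e]; exact Finset.mem_singleton_self _
        rw [e]
        exact k1.1 this
      · have : a ∉ A0 := by rw [hA0, if_neg (by rw [e]; norm_num)]; exact Finset.notMem_empty _
        rw [e]
        exact (hε _ hsol).1.resolve_left fun h => this (k1.2 h)
    refine ⟨(hε _ hsol).2.2 h7, fun r hr => ?_⟩
    have hrT : r ∈ T := Finset.mem_insert_of_mem hr
    have hra : r ≠ a := fun h' => haS (h' ▸ hr)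
    have k1 := code_r (P := T) hrT hra (φ A)
    rw [hAA'] at k1
    have : r ∉ A0 := by
      rw [hA0]
      split_ifs
      · simpa using hra
      · exact Finset.notMem_empty _
    exact ((hp P hP _ hsol).1 r (spl_sub P hr)).resolve_right fun h => this (k1.2 h)
  rw [Finset.card_eq_one]
  refine ⟨φ A, ?_⟩
  ext q
  rw [mem_FS, Finset.mem_singleton]
  constructor
  · rintro ⟨h1, h3⟩
    refine sig_inj2 hP h2 hb1 hb2 hc hp ht hY h1 hsol (fun r hr => ?_) ?_
    · rw [h3.2 r hr, hC.2 r hr]
    · rw [(hε _ h1).2.1 h3.1, (hε _ hsol).2.1 hC.1]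
  · rintro rfl
    exact ⟨hsol, hC⟩

lemma card_even2 (hb1 : S_SOLB1) (hb2 : S_SOLB2) (hc : S_SOLC) (hp : S_SOLP) (ht : S_SOLT)
    (hY : ¬ Odd (Yd lres (ind (inr P)) (spl P))) : Even (FS P).card := by
  classical
  obtain ⟨ε, hε1, hε⟩ := eps hP
  obtain ⟨J, E, hJ, hE, hK, hne⟩ := ker_ex hP h2 hY
  have hEP : E ⊆ P := by
    rcases hE with rfl | rfl
    · exact Finset.empty_subset _
    · exact inr_sub P
  have hUP : J ∪ E ⊆ P := Finset.union_subset (hJ.trans (spl_sub P)) hEP
  have hfl := fun (q : ℤ × ℤ) (hq : q ∈ Sol3 P) => flipsE hP h2 hb1 hb2 hp ht hq J E hJ hE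
  choose! φ hφ using hfl
  have hmem : ∀ q ∈ FS P, φ q ∈ FS P := by
    intro q hq
    rw [mem_FS] at hq ⊢
    obtain ⟨h1, h2, h3⟩ := hq
    obtain ⟨k0, k1, k2, k3, k4⟩ := hφ q h1
    refine ⟨k0, ?_, fun r hr => ?_⟩
    · rw [hK.2.neg_one_pow, mul_one] at k4
      rw [(hε _ k0).2, k4, ← (hε _ h1).2]
      exact h2
    · rw [k3 r hr, h3 r hr, hK.1 r hr, mul_one]
  have hsum : ∑ q ∈ FS P, (1 : ZMod 2) = 0 := by
    refine Finset.sum_involution (fun q _ => φ q) ?_ ?_ ?_ ?_
    · intro q _
      decide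
    · intro q hq _ he
      have he' : φ q = q := he
      obtain ⟨h1, h2⟩ := mem_FS.1 hq
      obtain ⟨r, hr⟩ := hne
      have k1 := (hφ q h1).2.1 r hr
      rw [he'] at k1
      refine notboth hP hp h1 h1 (hUP hr) ?_ k1
      simp
    · intro q hq
      exact hmem q hq
    · intro q hq
      obtain ⟨h1, h2⟩ := mem_FS.1 hq
      obtain ⟨k0, k1, k2, k3, k4⟩ := hφ q h1
      obtain ⟨l0, l1, l2, l3, l4⟩ := hφ (φ q) k0
      refine uniq hP hc hp k0 l0 h1 fun p hpP => ?_
      by_cases hpJ : p ∈ J ∪ E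
      · right
        refine ⟨l1 p hpJ, ?_⟩
        have := k1 p hpJ
        rwa [add_comm] at this
      · left
        refine ⟨l2 p hpP hpJ, ?_⟩
        have := (dvd_neg).2 (k2 p hpP hpJ)
        rwa [neg_sub] at this
  rw [Finset.sum_const, nsmul_one] at hsum
  exact (ZMod.natCast_eq_zero_iff_even).1 hsum

/-- the condition at the inert primes follows from the product formula -/
lemma inr_eq (hp : S_SOLP) : ∀ q ∈ Sol3 P, (∀ p ∈ spl P, jacobiSym q.2 p = 1) →
    ∀ a ∈ inr P, ∀ a' ∈ inr P, jacobiSym q.2 a = jacobiSym q.2 a' := by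
  classical
  intro q hq h1 a ha a' ha'
  by_cases haa : a = a'
  · rw [haa]
  have hin : inr P = {a, a'} := by
    symm
    refine Finset.eq_of_subset_of_card_le ?_ ?_
    · intro x hx
      rw [Finset.mem_insert, Finset.mem_singleton] at hx
      rcases hx with rfl | rfl
      · exact ha
      · exact ha'
    · rw [h2, Finset.card_pair haa]
  have hprod := (hp P hP q hq).2
  have e1 : ∏ p ∈ P, jacobiSym q.2 p =
      (∏ p ∈ spl P, jacobiSym q.2 p) * ∏ p ∈ inr P, jacobiSym q.2 p := by
    conv_lhs => rw [P_eq hP]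
    rw [Finset.prod_union disj_si]
  rw [e1, Finset.prod_eq_one h1, one_mul, hin, Finset.prod_pair haa] at hprod
  rcases (hp P hP q hq).1 a (inr_sub P ha) with h | h <;>
    rcases (hp P hP q hq).1 a' (inr_sub P ha') with h' | h' <;>
    rw [h, h'] at hprod ⊢ <;> norm_num at hprod

end

theorem t_FIX2 (ha : S_SOLA2) (hb1 : S_SOLB1) (hb2 : S_SOLB2) (hc : S_SOLC) (hp : S_SOLP)
    (ht : S_SOLT) : Pool.Agent.Z701.S_FIX2 := by
  intro P hP h2
  rw [fixS_card hP (inr_eq hP h2 hp)]
  by_cases hY : Odd (Yd lres (ind (inr P)) (spl P))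
  · rw [card_one2 hP h2 hb1 hb2 hc hp ht hY (ha P hP h2)]
    exact ⟨fun _ => hY, fun _ => odd_one⟩
  · have := card_even2 hP h2 hb1 hb2 hc hp ht hY
    exact ⟨fun h => absurd this (Nat.not_even_iff_odd.2 h), fun h => absurd h hY⟩

end Pool.Agent.Y657.Z
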